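import Pool.Agent.Lead.NTM
import Pool.Agent.H71.NT.Main

/-!
Time bounds `t` which are not eventually at least some power `n ^ ε`: closure of `NTIME(Pol t)`
under complementation holds only in the trivial case.
-/

namespace Pool.Agent.H71.SD

open Pool.Agent.Lead.NTM Filter

/-- If all long words in `L` are accepted in fewer steps than they have letters, then `L` is
prefix-determined. -/
theorem prefixDetermined_of_short {A : Type} {L : Set (List A)} {M : Machine A}
    (hM : ∀ w, w ∈ L ↔ Accepts M w) (n0 : ℕ)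
    (h : ∀ w ∈ L, n0 ≤ w.length → ∃ s < w.length, AcceptsIn M w s) : PrefixDetermined L := by
  have key : ∀ n, n0 ≤ n → ∀ w : List A, w.length = n → w ∈ L → w.take n0 ∈ L := by
    intro n hn
    induction n, hn using Nat.le_induction with
    | base =>
      intro w hw hwL
      rwa [List.take_of_length_le hw.le]
    | succ n hn ih =>
      intro w hw hwL
      obtain ⟨s, hs, hacc⟩ := h w hwL (by omega)
      have hsn : s ≤ n := by omega
      have h2 : w.take n ∈ L := by
        rw [hM]
        refine ⟨s, acceptsIn_congr ?_ hacc⟩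
        rw [List.take_take, min_eq_left hsn]
      have h3 := ih (w.take n) (by simp; omega) h2
      rwa [List.take_take, min_eq_left hn] at h3
  have key' : ∀ w : List A, n0 ≤ w.length → w.take n0 ∈ L → w ∈ L := by
    intro w hw hwL
    have hlen : (w.take n0).length = n0 := by simp [hw]
    obtain ⟨s, hs, hacc⟩ := h _ hwL hlen.ge
    rw [hlen] at hs
    rw [hM]
    refine ⟨s, acceptsIn_congr ?_ hacc⟩
    rw [List.take_take, min_eq_left (by omega)]
  refine ⟨n0, fun w w' hww => ?_⟩
  by_cases hw : n0 ≤ w.length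
  · have hw' : n0 ≤ w'.length := by
      have := congrArg List.length hww
      simp at this
      omega
    exact ⟨fun h1 => key' w' hw' (hww ▸ key _ hw w rfl h1),
      fun h1 => key' w hw (hww ▸ key _ hw' w' rfl h1)⟩
  · have hw' : w'.length < n0 := by
      have := congrArg List.length hww
      simp at this
      omega
    rw [List.take_of_length_le (by omega), List.take_of_length_le (by omega)] at hww
    rw [hww]

/-- If the words of `L` are accepted in a bounded number of steps, then `L` is
prefix-determined. -/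
theorem prefixDetermined_of_bounded {A : Type} {L : Set (List A)} {M : Machine A}
    (hM : ∀ w, w ∈ L ↔ Accepts M w) (B : ℕ) (h : ∀ w ∈ L, ∃ s ≤ B, AcceptsIn M w s) :
    PrefixDetermined L := by
  have key : ∀ w w' : List A, w.take B = w'.take B → w ∈ L → w' ∈ L := by
    intro w w' hww hw
    obtain ⟨s, hs, hacc⟩ := h w hw
    rw [hM]
    refine ⟨s, acceptsIn_congr ?_ hacc⟩
    have h1 : (w.take B).take s = (w'.take B).take s := by rw [hww]
    rwa [List.take_take, List.take_take, min_eq_left hs] at h1
  exact ⟨B, fun w w' hww => ⟨key w w' hww, key w' w hww.symm⟩⟩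

/-- A machine accepting a prefix-determined language in time `t ^ k + k` needs only a bounded
number of steps, if `t` is infinitely often smaller than each power. -/
theorem bounded_of_prefixDetermined {A : Type} {t : ℕ → ℕ}
    (ht : ∀ k : ℕ, ∃ᶠ n in atTop, t n ^ k < n) {M : Machine A} {k : ℕ}
    (hM : ∀ w, Accepts M w → ∃ s ≤ t w.length ^ k + k, AcceptsIn M w s)
    (hL : PrefixDetermined {w | Accepts M w}) :
    ∃ B, ∀ w, Accepts M w → ∃ s ≤ B, AcceptsIn M w s := by
  obtain ⟨N, hN⟩ := hL
  obtain ⟨n, hn, hNn⟩ := ((frequently_eval_lt ht (Polynomial.X ^ k + Polynomial.C k)).and_eventually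
    (eventually_ge_atTop N)).exists
  simp only [Polynomial.eval_add, Polynomial.eval_pow, Polynomial.eval_X,
    Polynomial.eval_C] at hn
  refine ⟨n + ∑ i ∈ Finset.range n, (t i ^ k + k), fun w hw => ?_⟩
  rcases Nat.lt_or_ge w.length n with h1 | h1
  · obtain ⟨s, hs, hacc⟩ := hM w hw
    refine ⟨s, hs.trans ?_, hacc⟩
    have h2 : t w.length ^ k + k ≤ ∑ i ∈ Finset.range n, (t i ^ k + k) :=
      Finset.single_le_sum (f := fun i => t i ^ k + k) (fun _ _ => Nat.zero_le _)
        (Finset.mem_range.2 h1)
    omega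
  · have h2 : Accepts M (w.take n) := by
      refine (hN w (w.take n) ?_).1 hw
      rw [List.take_take, min_eq_left hNn]
    obtain ⟨s, hs, hacc⟩ := hM _ h2
    have hlen : (w.take n).length = n := by simp [h1]
    rw [hlen] at hs
    refine ⟨s, by omega, acceptsIn_congr ?_ hacc⟩
    rw [List.take_take, min_eq_left (by omega)]

/-- If `NTIME(Pol t)` consists of the prefix-determined languages, it is closed. -/
theorem closed_of_eq {A : Type} {t : ℕ → ℕ} (h : NTIMEPol A t = {L | PrefixDetermined L}) :
    coNTIMEPol A t = NTIMEPol A t := by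
  ext L
  rw [h]
  show Lᶜ ∈ NTIMEPol A t ↔ _
  rw [h]
  exact prefixDetermined_compl_iff

/-- The dichotomy. -/
theorem closed_iff_trivial {t : ℕ → ℕ} (ht : ∀ k : ℕ, ∃ᶠ n in atTop, t n ^ k < n)
    (A : Type) [Finite A] :
    coNTIMEPol A t = NTIMEPol A t ↔ NTIMEPol A t = {L | PrefixDetermined L} := by
  refine ⟨fun h => ?_, closed_of_eq⟩
  refine Set.Subset.antisymm (fun L hL => ?_) (fun L hL => prefixDetermined_mem t hL)
  exact prefixDetermined_of_inter ht hL (by rw [h]; exact hL)

/-- The criterion in terms of running times. -/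
theorem closed_iff_bounded {t : ℕ → ℕ} (ht : ∀ k : ℕ, ∃ᶠ n in atTop, t n ^ k < n)
    (A : Type) [Finite A] :
    coNTIMEPol A t = NTIMEPol A t ↔ ∀ (M : Machine A) (k : ℕ),
      (∀ w, Accepts M w → ∃ s ≤ t w.length ^ k + k, AcceptsIn M w s) →
        ∃ B, ∀ w, Accepts M w → ∃ s ≤ B, AcceptsIn M w s := by
  rw [closed_iff_trivial ht]
  constructor
  · intro h M k hM
    refine bounded_of_prefixDetermined ht hM ?_
    have h1 : {w | Accepts M w} ∈ NTIMEPol A t := by
      refine ⟨M, Polynomial.X ^ k + Polynomial.C k, fun w => Iff.rfl, fun w hw => ?_⟩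
      simpa using hM w hw
    rw [h] at h1
    exact h1
  · intro h
    refine Set.Subset.antisymm ?_ (fun L hL => prefixDetermined_mem t hL)
    rintro L ⟨M, p, hM, hp⟩
    obtain ⟨k, hk⟩ := Pool.Agent.H71.NT.exists_pow_bound p
    obtain ⟨B, hB⟩ := h M k fun w hw => by
      obtain ⟨s, hs, hacc⟩ := hp w ((hM w).2 hw)
      exact ⟨s, hs.trans (hk _), hacc⟩
    exact prefixDetermined_of_bounded hM B fun w hw => hB w ((hM w).1 hw)

/-- If `n ≤ t(n) ^ k` for all large `n`, then `t` may be replaced by `t(n) + n`. -/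
theorem eq_add_id {A : Type} {t : ℕ → ℕ} {k : ℕ} (ht : ∀ᶠ n in atTop, n ≤ t n ^ k) :
    NTIMEPol A t = NTIMEPol A (fun n => t n + n) := by
  obtain ⟨n0, hn0⟩ := eventually_atTop.1 ht
  refine Set.Subset.antisymm (fun L hL => ?_) (fun L hL => ?_)
  · exact mem_NTIMEPol_of_le hL Polynomial.X fun w _ => by simp
  · refine mem_NTIMEPol_of_le hL (Polynomial.X + Polynomial.X ^ k + Polynomial.C n0) fun w _ => ?_
    simp only [Polynomial.eval_add, Polynomial.eval_pow, Polynomial.eval_X, Polynomial.eval_C]
    rcases Nat.lt_or_ge w.length n0 with h | h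
    · omega
    · have := hn0 _ h
      omega

end Pool.Agent.H71.SD
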