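import Pool.Agent.Lead.NTM

/-!
A machine which guesses a word of the same length as its input and with a prescribed prefix `l`,
and runs a given machine on it. The letters are guessed when they are read for the first time.
-/

namespace Pool.Agent.H71.SD

open Function Pool.Agent.Lead.NTM

/-- Acceptance from a configuration. -/
def AccF {A : Type} (M : Machine A) : ℕ → Config M → Prop
  | 0, c => c.state ∈ M.accepting
  | s + 1, c => ∃ d, Step M c d ∧ AccF M s d

theorem accF_iff {A : Type} (M : Machine A) (s : ℕ) (c0 : Config M) : AccF M s c0 ↔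
    ∃ c : ℕ → Config M, c 0 = c0 ∧ (∀ i < s, Step M (c i) (c (i + 1))) ∧
      (c s).state ∈ M.accepting := by
  induction s generalizing c0 with
  | zero =>
    constructor
    · intro h
      exact ⟨fun _ => c0, rfl, fun i hi => absurd hi (Nat.not_lt_zero i), h⟩
    · rintro ⟨c, rfl, -, h⟩
      exact h
  | succ s ih =>
    constructor
    · rintro ⟨d, hd, h⟩
      obtain ⟨c, h1, h2, h3⟩ := (ih d).1 h
      refine ⟨fun i => Nat.casesOn i c0 c, rfl, fun i hi => ?_, h3⟩
      cases i with
      | zero =>
        show Step M c0 (c 0)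
        rw [h1]
        exact hd
      | succ i => exact h2 i (by omega)
    · rintro ⟨c, rfl, h2, h3⟩
      exact ⟨c 1, h2 0 (by omega), (ih _).2 ⟨fun i => c (i + 1), rfl,
        fun i hi => h2 (i + 1) (by omega), h3⟩⟩

theorem acceptsIn_iff_accF {A : Type} {M : Machine A} {w : List A} {s : ℕ} :
    AcceptsIn M w s ↔ AccF M s (startConfig M w) := (accF_iff M s _).symm

section

variable {A : Type} {G : Type}

/-- The code of a letter. -/
def encL : Option (A ⊕ G) → Option (A ⊕ (A ⊕ G))
  | none => none
  | some y => some (Sum.inr y)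

theorem encL_injective : Injective (encL (A := A) (G := G)) := by
  intro x y h
  cases x <;> cases y <;> simp_all [encL]

/-- `x` may be read as `y`. -/
def Cmp (x : Option (A ⊕ (A ⊕ G))) (y : Option (A ⊕ G)) : Prop :=
  x = encL y ∨ ((∃ a, x = some (Sum.inl a)) ∧ ∃ b, y = some (Sum.inl b))

theorem cmp_encL {y y' : Option (A ⊕ G)} (h : Cmp (encL y) y') : y' = y := by
  rcases h with h | ⟨⟨a, ha⟩, -⟩
  · exact (encL_injective h).symm
  · cases y <;> simp [encL] at ha

/-- Decoding. -/
def decL : Option (A ⊕ (A ⊕ G)) → Option (A ⊕ G)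
  | none => none
  | some (Sum.inl a) => some (Sum.inl a)
  | some (Sum.inr y) => some y

theorem cmp_decL (x : Option (A ⊕ (A ⊕ G))) : Cmp x (decL x) := by
  rcases x with _ | (a | y)
  · exact Or.inl rfl
  · exact Or.inr ⟨⟨a, rfl⟩, ⟨a, rfl⟩⟩
  · exact Or.inl rfl

end

variable {A : Type} [Finite A] (M : Machine A) (l : List A)

/-- The transition relation. The states `inl j` with `j < |l|` write the letters of `l` on the
first cells, the states `inl j` with `|l| ≤ j < 2 |l|` move back, `inl (2 |l|)` starts the
simulation, the states `inr q` simulate. -/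
def pdel : (Fin (2 * l.length + 1) ⊕ M.Q) → (Fin (M.k + 1) → Option (A ⊕ (A ⊕ M.G))) →
    Set ((Fin (2 * l.length + 1) ⊕ M.Q) × (Fin (M.k + 1) → Option (A ⊕ (A ⊕ M.G))) ×
      (Fin (M.k + 1) → Move))
  | Sum.inl j, x => {r |
      (∃ h : (j : ℕ) < l.length, (∃ a, x 0 = some (Sum.inl a)) ∧
        r = (Sum.inl ⟨j + 1, by omega⟩, update x 0 (encL (some (Sum.inl l[(j : ℕ)]))),
          fun i => if i = 0 then Move.right else Move.stay)) ∨
      (∃ h : l.length ≤ (j : ℕ) ∧ (j : ℕ) < 2 * l.length,
        r = (Sum.inl ⟨j + 1, by omega⟩, x, fun i => if i = 0 then Move.left else Move.stay)) ∨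
      ((j : ℕ) = 2 * l.length ∧ r = (Sum.inr M.start, x, fun _ => Move.stay))}
  | Sum.inr q, x => {r | ∃ x', (∀ i, Cmp (x i) (x' i)) ∧ ∃ r' ∈ M.δ q x',
      r = (Sum.inr r'.1, fun i => encL (r'.2.1 i), r'.2.2)}

/-- The machine. -/
def pm : Machine A where
  k := M.k
  Q := Fin (2 * l.length + 1) ⊕ M.Q
  finQ := by
    have := M.finQ
    infer_instance
  G := A ⊕ M.G
  finG := by
    have := M.finG
    infer_instance
  start := Sum.inl ⟨0, by omega⟩
  accepting := {q | ∃ q' ∈ M.accepting, q = Sum.inr q'}
  δ := pdel M l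

/-- Configurations of the machine. -/
structure Cg where
  st : Fin (2 * l.length + 1) ⊕ M.Q
  tp : Fin (M.k + 1) → ℤ → Option (A ⊕ (A ⊕ M.G))
  ps : Fin (M.k + 1) → ℤ

variable {M l}

/-- Steps. -/
def GStep (c c' : Cg M l) : Prop :=
  ∃ r ∈ pdel M l c.st (fun i => c.tp i (c.ps i)), c'.st = r.1 ∧
    c'.tp = (fun i => update (c.tp i) (c.ps i) (r.2.1 i)) ∧
    c'.ps = (fun i => c.ps i + (r.2.2 i).toInt)

/-- Acceptance. -/
def GAcc : ℕ → Cg M l → Prop
  | 0, c => ∃ q' ∈ M.accepting, c.st = Sum.inr q'
  | s + 1, c => ∃ d, GStep c d ∧ GAcc s d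

/-- Conversion. -/
def Cg.toC (c : Cg M l) : Config (pm M l) := ⟨c.st, c.tp, c.ps⟩

theorem gstep_iff (c c' : Cg M l) : Step (pm M l) c.toC c'.toC ↔ GStep c c' := Iff.rfl

theorem gacc_iff (s : ℕ) (c : Cg M l) : AccF (pm M l) s c.toC ↔ GAcc s c := by
  induction s generalizing c with
  | zero => exact Iff.rfl
  | succ s ih =>
    constructor
    · rintro ⟨d, hd, h⟩
      exact ⟨⟨d.state, d.tape, d.pos⟩, hd, (ih ⟨d.state, d.tape, d.pos⟩).1 h⟩
    · rintro ⟨d, hd, h⟩
      exact ⟨d.toC, hd, (ih d).2 h⟩

/-- `c` refines `d`. -/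
def Rf (d : Cg M l) (c : Config M) : Prop :=
  d.st = Sum.inr c.state ∧ (∀ i z, Cmp (d.tp i z) (c.tape i z)) ∧ ∀ i, d.ps i = c.pos i

omit [Finite A] in
theorem rf_back {d d' : Cg M l} {q : M.Q} (hq : d.st = Sum.inr q)
    (hst : GStep d d') {c' : Config M} (hr : Rf d' c') :
    ∃ c, Rf d c ∧ Step M c c' := by
  obtain ⟨r, hrδ, h1, h2, h3⟩ := hst
  rw [hq] at hrδ
  obtain ⟨x', hx', r', hr', rfl⟩ := hrδ
  obtain ⟨hr1, hr2, hr3⟩ := hr
  refine ⟨⟨q, fun i => update (c'.tape i) (d.ps i) (x' i), d.ps⟩, ⟨hq, fun i z => ?_,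
    fun i => rfl⟩, r', ?_, ?_, ?_, ?_⟩
  · by_cases hz : z = d.ps i
    · subst hz
      simp only [update_self]
      exact hx' i
    · simp only [update_of_ne hz]
      have h4 : Cmp (update (d.tp i) (d.ps i) (encL (r'.2.1 i)) z) (c'.tape i z) := by
        have h5 := hr2 i z
        rw [h2] at h5
        exact h5
      rwa [update_of_ne hz] at h4
  · simp only [update_self]
    exact hr'
  · rw [h1] at hr1
    exact (Sum.inr_injective hr1).symm
  · funext i z
    show c'.tape i z = update (update (c'.tape i) (d.ps i) (x' i)) (d.ps i) (r'.2.1 i) z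
    by_cases hz : z = d.ps i
    · subst hz
      have h4 : Cmp (update (d.tp i) (d.ps i) (encL (r'.2.1 i)) (d.ps i)) (c'.tape i (d.ps i)) := by
        have h5 := hr2 i (d.ps i)
        rw [h2] at h5
        exact h5
      rw [update_self] at h4 ⊢
      exact cmp_encL h4
    · rw [update_of_ne hz, update_of_ne hz]
  · funext i
    rw [← hr3 i, h3]

omit [Finite A] in
theorem rf_forth {d : Cg M l} {c c' : Config M} (hr : Rf d c) (hst : Step M c c') :
    ∃ d', GStep d d' ∧ Rf d' c' := by
  obtain ⟨r, hrδ, h1, h2, h3⟩ := hst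
  obtain ⟨hr1, hr2, hr3⟩ := hr
  refine ⟨⟨Sum.inr r.1, fun i => update (d.tp i) (d.ps i) (encL (r.2.1 i)), c'.pos⟩,
    ⟨(Sum.inr r.1, fun i => encL (r.2.1 i), r.2.2), ?_, rfl, rfl, ?_⟩, ?_, fun i z => ?_,
    fun i => rfl⟩
  · rw [hr1]
    exact ⟨fun i => c.tape i (c.pos i), fun i => by
      show Cmp (d.tp i (d.ps i)) (c.tape i (c.pos i))
      rw [hr3 i]
      exact hr2 i _, r, hrδ, rfl⟩
  · rw [h3]
    funext i
    rw [hr3 i]
  · rw [h1]
  · rw [h2]
    show Cmp (update (d.tp i) (d.ps i) (encL (r.2.1 i)) z) (update (c.tape i) (c.pos i) (r.2.1 i) z)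
    rw [hr3 i]
    by_cases hz : z = c.pos i
    · subst hz
      rw [update_self, update_self]
      exact Or.inl rfl
    · rw [update_of_ne hz, update_of_ne hz]
      exact hr2 i z

omit [Finite A] in
theorem gacc_iff_exists {s : ℕ} {d : Cg M l} {q : M.Q} (hq : d.st = Sum.inr q) :
    GAcc s d ↔ ∃ c, Rf d c ∧ AccF M s c := by
  induction s generalizing d q with
  | zero =>
    constructor
    · rintro ⟨q', hq', h⟩
      refine ⟨⟨q, fun i z => decL (d.tp i z), d.ps⟩, ⟨hq, fun i z => cmp_decL _,
        fun i => rfl⟩, ?_⟩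
      rw [hq] at h
      have h' : q = q' := Sum.inr_injective h
      show q ∈ M.accepting
      rw [h']
      exact hq'
    · rintro ⟨c, ⟨h1, -, -⟩, h⟩
      exact ⟨c.state, h, h1⟩
  | succ s ih =>
    constructor
    · rintro ⟨d', hd', h⟩
      obtain ⟨q', hq'⟩ : ∃ q', d'.st = Sum.inr q' := by
        obtain ⟨r, hrδ, h1, -, -⟩ := hd'
        rw [hq] at hrδ
        obtain ⟨x', -, r', -, rfl⟩ := hrδ
        exact ⟨r'.1, h1⟩
      obtain ⟨c', hc', hacc⟩ := (ih hq').1 h
      obtain ⟨c, hc, hst⟩ := rf_back hq hd' hc'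
      exact ⟨c, hc, c', hst, hacc⟩
    · rintro ⟨c, hc, c', hst, hacc⟩
      obtain ⟨d', hd', hr⟩ := rf_forth hc hst
      exact ⟨d', hd', (ih hr.1).2 ⟨c', hr, hacc⟩⟩

variable (M l)

/-- The tape `0` after `j` letters have been written. -/
def tj (v : List A) (j : ℕ) : ℤ → Option (A ⊕ (A ⊕ M.G)) := fun z =>
  if h : 0 ≤ z ∧ z < j ∧ z.toNat < l.length then encL (some (Sum.inl (l[z.toNat]'h.2.2)))
  else wordTape v z

/-- The configurations during the first phase. -/
def cj (v : List A) (q : Fin (2 * l.length + 1) ⊕ M.Q) (p : ℤ) (m : ℕ) : Cg M l :=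
  ⟨q, fun i => if i = 0 then tj M l v m else fun _ => none,
    fun i => if i = 0 then p else 0⟩

theorem start_eq_cj (v : List A) :
    startConfig (pm M l) v = (cj M l v (Sum.inl ⟨0, by omega⟩) 0 0).toC := by
  unfold startConfig cj Cg.toC
  congr 1
  · funext i
    show (if i = 0 then wordTape v else fun _ => none) =
      if i = 0 then tj M l v 0 else fun _ => none
    by_cases hi : i = 0
    · rw [if_pos hi, if_pos hi]
      funext z
      unfold tj
      rw [dif_neg (by simp; omega)]
    · rw [if_neg hi, if_neg hi]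
  · funext i
    show (0 : ℤ) = if i = 0 then 0 else 0
    rw [ite_self]

variable {M l}

omit [Finite A] in
theorem tj_read (v : List A) (j : ℕ) : tj M l v j j = wordTape v j := by
  unfold tj
  rw [dif_neg (by omega)]

omit [Finite A] in
theorem tj_update (v : List A) {j : ℕ} (hj : j < l.length) :
    update (tj M l v j) (j : ℤ) (encL (some (Sum.inl l[j]))) = tj M l v (j + 1) := by
  funext z
  by_cases hz : z = j
  · subst hz
    rw [update_self]
    unfold tj
    rw [dif_pos ⟨by omega, by push_cast; omega, by simpa using hj⟩]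
    rfl
  · rw [update_of_ne hz]
    unfold tj
    by_cases h : 0 ≤ z ∧ z < j ∧ z.toNat < l.length
    · rw [dif_pos h, dif_pos ⟨h.1, by push_cast; omega, h.2.2⟩]
    · rw [dif_neg h, dif_neg]
      push_cast
      omega

omit [Finite A] in
theorem gacc_write {v : List A} {j : ℕ} (hj : j < l.length) {s : ℕ} :
    GAcc s (cj M l v (Sum.inl ⟨j, by omega⟩) j j) ↔ j < v.length ∧ ∃ s', s = s' + 1 ∧
      GAcc s' (cj M l v (Sum.inl ⟨j + 1, by omega⟩) ((j + 1 : ℕ) : ℤ) (j + 1)) := by
  cases s with
  | zero =>
    constructor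
    · rintro ⟨q', -, h⟩
      exact absurd h (by simp [cj])
    · rintro ⟨-, s', h, -⟩
      omega
  | succ s =>
    constructor
    · rintro ⟨d, ⟨r, hr, h1, h2, h3⟩, hacc⟩
      rcases hr with ⟨h, ⟨a, ha⟩, rfl⟩ | ⟨h, rfl⟩ | ⟨h, rfl⟩
      · have hv : j < v.length := by
          have ha' : (if (0 : Fin (M.k + 1)) = 0 then tj M l v j else fun _ => none)
              (if (0 : Fin (M.k + 1)) = 0 then (j : ℤ) else 0) = some (Sum.inl a) := ha
          rw [if_pos rfl, if_pos rfl, tj_read] at ha'
          unfold wordTape at ha'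
          rw [if_pos (by omega)] at ha'
          by_contra hcon
          rw [List.getElem?_eq_none (by simpa using hcon)] at ha'
          simp at ha'
        refine ⟨hv, s, rfl, ?_⟩
        convert hacc using 1
        obtain ⟨st, tp, ps⟩ := d
        simp only at h1 h2 h3
        subst h1 h2 h3
        unfold cj
        congr 1
        · funext i
          by_cases hi : i = 0
          · subst hi
            simp only [if_true, update_self]
            exact (tj_update v hj).symm
          · simp only [if_neg hi, update_of_ne hi]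
            exact (update_eq_self _ _).symm
        · funext i
          by_cases hi : i = 0
          · subst hi
            simp only [if_true, Move.toInt]
            push_cast
            rfl
          · simp only [if_neg hi, Move.toInt]
            rfl
      · exact absurd h.1 (by simp; omega)
      · exact absurd h (by simp; omega)
    · rintro ⟨hv, s', h, hacc⟩
      obtain rfl : s = s' := by omega
      refine ⟨_, ⟨(Sum.inl ⟨j + 1, by omega⟩,
        update (fun i => (cj M l v (Sum.inl ⟨j, by omega⟩) j j).tp i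
        ((cj M l v (Sum.inl ⟨j, by omega⟩) j j).ps i)) 0 (encL (some (Sum.inl l[j]))),
          fun i => if i = 0 then Move.right else Move.stay), Or.inl ⟨hj, ⟨v[j], ?_⟩, rfl⟩, rfl, ?_,
          ?_⟩, hacc⟩
      · show (if (0 : Fin (M.k + 1)) = 0 then tj M l v j else fun _ => none)
              (if (0 : Fin (M.k + 1)) = 0 then (j : ℤ) else 0) = some (Sum.inl v[j])
        rw [if_pos rfl, if_pos rfl, tj_read]
        unfold wordTape
        rw [if_pos (by omega)]
        simp [hv]
      · funext i
        by_cases hi : i = 0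
        · subst hi
          simp only [cj, if_true, update_self]
          exact (tj_update v hj).symm
        · simp only [cj, if_neg hi, update_of_ne hi]
          exact (update_eq_self _ _).symm
      · funext i
        by_cases hi : i = 0
        · subst hi
          simp only [cj, if_true, Move.toInt]
          push_cast
          rfl
        · simp only [cj, if_neg hi, Move.toInt]
          rfl

omit [Finite A] in
theorem gacc_back {v : List A} {j : ℕ} (hj : l.length ≤ j) (hj' : j < 2 * l.length) {s : ℕ}
    {p : ℤ} {m : ℕ} :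
    GAcc s (cj M l v (Sum.inl ⟨j, by omega⟩) p m) ↔ ∃ s', s = s' + 1 ∧
      GAcc s' (cj M l v (Sum.inl ⟨j + 1, by omega⟩) (p - 1) m) := by
  cases s with
  | zero =>
    constructor
    · rintro ⟨q', -, h⟩
      exact absurd h (by simp [cj])
    · rintro ⟨s', h, -⟩
      omega
  | succ s =>
    have hps : (fun i : Fin (M.k + 1) => (if i = 0 then p else 0) +
        (if i = 0 then Move.left else Move.stay).toInt) = fun i => if i = 0 then p - 1 else 0 := by
      funext i
      by_cases hi : i = 0
      · subst hi
        simp only [if_true, Move.toInt]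
        ring
      · simp only [if_neg hi, Move.toInt]
        rfl
    constructor
    · rintro ⟨d, ⟨r, hr, h1, h2, h3⟩, hacc⟩
      rcases hr with ⟨h, -, rfl⟩ | ⟨h, rfl⟩ | ⟨h, rfl⟩
      · exact absurd h (by simp; omega)
      · refine ⟨s, rfl, ?_⟩
        convert hacc using 1
        obtain ⟨st, tp, ps⟩ := d
        simp only at h1 h2 h3
        subst h1 h2 h3
        unfold cj
        congr 1
        · funext i
          exact (update_eq_self _ _).symm
        · exact hps.symm
      · exact absurd h (by simp; omega)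
    · rintro ⟨s', h, hacc⟩
      obtain rfl : s = s' := by omega
      refine ⟨_, ⟨(Sum.inl ⟨j + 1, by omega⟩,
        (fun i => (cj M l v (Sum.inl ⟨j, by omega⟩) p m).tp i
        ((cj M l v (Sum.inl ⟨j, by omega⟩) p m).ps i)),
          fun i => if i = 0 then Move.left else Move.stay),
          Or.inr (Or.inl ⟨⟨hj, hj'⟩, rfl⟩), rfl, ?_, ?_⟩, hacc⟩
      · funext i
        exact (update_eq_self _ _).symm
      · exact hps.symm

omit [Finite A] in
theorem gacc_last {v : List A} {s : ℕ} {p : ℤ} {m : ℕ} :
    GAcc s (cj M l v (Sum.inl ⟨2 * l.length, by omega⟩) p m) ↔ ∃ s', s = s' + 1 ∧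
      GAcc s' (cj M l v (Sum.inr M.start) p m) := by
  cases s with
  | zero =>
    constructor
    · rintro ⟨q', -, h⟩
      exact absurd h (by simp [cj])
    · rintro ⟨s', h, -⟩
      omega
  | succ s =>
    have hps : (fun i : Fin (M.k + 1) => (if i = 0 then p else 0) +
        Move.stay.toInt) = fun i => if i = 0 then p else 0 := by
      funext i
      simp only [Move.toInt, add_zero]
    constructor
    · rintro ⟨d, ⟨r, hr, h1, h2, h3⟩, hacc⟩
      rcases hr with ⟨h, -, rfl⟩ | ⟨h, rfl⟩ | ⟨h, rfl⟩
      · exact absurd h (by simp; omega)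
      · exact absurd h.2 (by simp)
      · refine ⟨s, rfl, ?_⟩
        convert hacc using 1
        obtain ⟨st, tp, ps⟩ := d
        simp only at h1 h2 h3
        subst h1 h2 h3
        unfold cj
        congr 1
        · funext i
          exact (update_eq_self _ _).symm
        · exact hps.symm
    · rintro ⟨s', h, hacc⟩
      obtain rfl : s = s' := by omega
      refine ⟨_, ⟨(Sum.inr M.start,
        (fun i => (cj M l v (Sum.inl ⟨2 * l.length, by omega⟩) p m).tp i
        ((cj M l v (Sum.inl ⟨2 * l.length, by omega⟩) p m).ps i)),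
          fun _ => Move.stay),
          Or.inr (Or.inr ⟨rfl, rfl⟩), rfl, ?_, ?_⟩, hacc⟩
      · funext i
        exact (update_eq_self _ _).symm
      · exact hps.symm

omit [Finite A] in
theorem gacc_phase1 {v : List A} (s : ℕ) : ∀ j (hj : j ≤ l.length),
    GAcc s (cj M l v (Sum.inl ⟨0, by omega⟩) 0 0) ↔ (j ≤ v.length ∧ ∃ s', s = s' + j ∧
      GAcc s' (cj M l v (Sum.inl ⟨j, by omega⟩) (j : ℕ) j)) := by
  intro j
  induction j with
  | zero =>
    intro _
    constructor
    · exact fun h => ⟨Nat.zero_le _, s, rfl, h⟩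
    · rintro ⟨-, s', h, hacc⟩
      obtain rfl : s = s' := by omega
      exact hacc
  | succ j ih =>
    intro hj
    rw [ih (by omega)]
    constructor
    · rintro ⟨h1, s', h2, h3⟩
      obtain ⟨h4, s'', h5, h6⟩ := (gacc_write (by omega)).1 h3
      exact ⟨by omega, s'', by omega, h6⟩
    · rintro ⟨h1, s', h2, h3⟩
      exact ⟨by omega, s' + 1, by omega, (gacc_write (by omega)).2 ⟨by omega, s', rfl, h3⟩⟩

omit [Finite A] in
theorem gacc_phase2 {v : List A} (s : ℕ) : ∀ j (hj : j ≤ l.length),
    GAcc s (cj M l v (Sum.inl ⟨l.length, by omega⟩) (l.length : ℕ) l.length) ↔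
      ∃ s', s = s' + j ∧
      GAcc s' (cj M l v (Sum.inl ⟨l.length + j, by omega⟩) ((l.length : ℤ) - j) l.length) := by
  intro j
  induction j with
  | zero =>
    intro _
    constructor
    · exact fun h => ⟨s, rfl, by simpa using h⟩
    · rintro ⟨s', h, hacc⟩
      obtain rfl : s = s' := by omega
      simpa using hacc
  | succ j ih =>
    intro hj
    rw [ih (by omega)]
    have hp : (l.length : ℤ) - (j + 1 : ℕ) = (l.length : ℤ) - j - 1 := by
      push_cast
      ring
    rw [hp]
    constructor
    · rintro ⟨s', h2, h3⟩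
      obtain ⟨s'', h5, h6⟩ := (gacc_back (by omega) (by omega)).1 h3
      exact ⟨s'', by omega, h6⟩
    · rintro ⟨s', h2, h3⟩
      exact ⟨s' + 1, by omega, (gacc_back (by omega) (by omega)).2 ⟨s', rfl, h3⟩⟩

omit [Finite A] in
theorem wordTape_eq_some {G : Type} {w : List A} {z : ℤ} {y : A ⊕ G}
    (h : wordTape w z = some y) : 0 ≤ z ∧ z.toNat < w.length := by
  unfold wordTape at h
  split_ifs at h with h0
  refine ⟨h0, ?_⟩
  by_contra hcon
  rw [List.getElem?_eq_none (by omega)] at h
  simp at h

omit [Finite A] in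
/-- **The machine guesses a word with prefix `l` of the length of the input.** -/
theorem exists_word_of_rf {v : List A} (hv : l.length ≤ v.length) {c : Config M}
    (hc : Rf (cj M l v (Sum.inr M.start) 0 l.length) c) :
    ∃ w : List A, w.length = v.length ∧ w.take l.length = l ∧ c = startConfig M w := by
  obtain ⟨h1, h2, h3⟩ := hc
  have hst : M.start = c.state := Sum.inr_injective h1
  -- the letters
  have hlet : ∀ i : Fin v.length, ∃ b : A, c.tape 0 (i : ℕ) = some (Sum.inl b) ∧
      ∀ h : (i : ℕ) < l.length, b = l[(i : ℕ)] := by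
    intro i
    have h4 : Cmp (tj M l v l.length (i : ℕ)) (c.tape 0 (i : ℕ)) := by
      have h5 := h2 0 (i : ℕ)
      exact h5
    by_cases hi : (i : ℕ) < l.length
    · unfold tj at h4
      rw [dif_pos ⟨by omega, by omega, by simpa using hi⟩] at h4
      exact ⟨l[(i : ℕ)], cmp_encL h4, fun _ => rfl⟩
    · unfold tj at h4
      rw [dif_neg (by omega)] at h4
      unfold wordTape at h4
      rw [if_pos (by omega)] at h4
      have h6 : v[((i : ℕ) : ℤ).toNat]? = some v[(i : ℕ)] := by simp
      rw [h6] at h4
      rcases h4 with h4 | ⟨-, b, hb⟩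
      · exfalso
        revert h4
        cases c.tape 0 (i : ℕ) <;> simp [encL]
      · exact ⟨b, hb, fun h => absurd h hi⟩
  choose f hf1 hf2 using hlet
  refine ⟨List.ofFn f, by simp, ?_, ?_⟩
  · apply List.ext_getElem
    · simp [hv]
    · intro i hi1 hi2
      rw [List.getElem_take, List.getElem_ofFn]
      exact hf2 _ hi2
  · obtain ⟨st, tp, ps⟩ := c
    unfold startConfig
    simp only at hst h2 h3 hf1
    congr 1
    · exact hst.symm
    · funext i z
      by_cases hi : i = 0
      · subst hi
        rw [if_pos rfl]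
        have h4 : Cmp (tj M l v l.length z) (tp 0 z) := h2 0 z
        by_cases hz : 0 ≤ z ∧ z.toNat < v.length
        · have h5 := hf1 ⟨z.toNat, hz.2⟩
          have h6 : ((⟨z.toNat, hz.2⟩ : Fin v.length) : ℕ) = z.toNat := rfl
          rw [h6, Int.toNat_of_nonneg hz.1] at h5
          rw [h5]
          unfold wordTape
          rw [if_pos hz.1]
          rw [List.getElem?_eq_getElem (by simpa using hz.2)]
          simp
        · have h5 : tj M l v l.length z = none := by
            unfold tj
            rw [dif_neg (by omega)]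
            unfold wordTape
            split_ifs with h0
            · rw [List.getElem?_eq_none (by omega)]
              rfl
            · rfl
          rw [h5] at h4
          have h6 : tp 0 z = none := by
            rcases h4 with h4 | ⟨⟨a, ha⟩, -⟩
            · revert h4
              cases tp 0 z <;> simp [encL]
            · exact absurd ha (by simp)
          rw [h6]
          unfold wordTape
          split_ifs with h0
          · rw [List.getElem?_eq_none (by simp; omega)]
            rfl
          · rfl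
      · rw [if_neg hi]
        have h5 : Cmp ((if i = 0 then tj M l v l.length else fun _ => none) z) (tp i z) := h2 i z
        rw [if_neg hi] at h5
        rcases h5 with h5 | ⟨⟨a, ha⟩, -⟩
        · revert h5
          cases tp i z <;> simp [encL]
        · exact absurd ha (by simp)
    · funext i
      have h4 : (if i = 0 then (0 : ℤ) else 0) = ps i := h3 i
      rw [ite_self] at h4
      exact h4.symm

omit [Finite A] in
theorem rf_of_word {v w : List A} (hl : w.length = v.length) (hw : w.take l.length = l) :
    Rf (cj M l v (Sum.inr M.start) 0 l.length) (startConfig M w) := by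
  refine ⟨rfl, fun i z => ?_, fun i => ?_⟩
  · show Cmp ((if i = 0 then tj M l v l.length else fun _ => none) z)
      ((if i = 0 then wordTape w else fun _ => none) z)
    by_cases hi : i = 0
    · rw [if_pos hi, if_pos hi]
      by_cases hz : 0 ≤ z ∧ z < l.length ∧ z.toNat < l.length
      · unfold tj
        rw [dif_pos hz]
        have h1 : z.toNat < w.length := by
          have := congrArg List.length hw
          rw [List.length_take] at this
          omega
        have h2 : (wordTape w z : Option (A ⊕ M.G)) = some (Sum.inl l[z.toNat]) := by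
          unfold wordTape
          rw [if_pos hz.1, List.getElem?_eq_getElem h1]
          have h3 : w[z.toNat] = l[z.toNat] := by
            have h4 : (w.take l.length)[z.toNat]'(by rw [hw]; exact hz.2.2) = l[z.toNat] := by
              congr 1
            rw [← h4, List.getElem_take]
          rw [h3]
          rfl
        rw [h2]
        exact Or.inl rfl
      · unfold tj
        rw [dif_neg hz]
        by_cases h0 : 0 ≤ z ∧ z.toNat < v.length
        · right
          unfold wordTape
          rw [if_pos h0.1, if_pos h0.1, List.getElem?_eq_getElem h0.2,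
            List.getElem?_eq_getElem (by omega)]
          exact ⟨⟨_, rfl⟩, ⟨_, rfl⟩⟩
        · left
          have h5 : ∀ (G' : Type) (u : List A), u.length = v.length →
              (wordTape u z : Option (A ⊕ G')) = none := by
            intro G' u hu
            unfold wordTape
            split_ifs with h6
            · rw [List.getElem?_eq_none (by omega)]
              rfl
            · rfl
          rw [h5 _ _ rfl, h5 _ _ hl]
          rfl
    · rw [if_neg hi, if_neg hi]
      exact Or.inl rfl
  · show (if i = 0 then (0 : ℤ) else 0) = 0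
    rw [ite_self]

/-- **The machine guesses a word with prefix `l` of the length of the input.** -/
theorem acceptsIn_pm {v : List A} {s : ℕ} : AcceptsIn (pm M l) v s ↔
    ∃ w : List A, w.length = v.length ∧ l.length ≤ v.length ∧ w.take l.length = l ∧
      ∃ s', s = s' + (2 * l.length + 1) ∧ AcceptsIn M w s' := by
  rw [acceptsIn_iff_accF, start_eq_cj, gacc_iff, gacc_phase1 s l.length le_rfl]
  constructor
  · rintro ⟨hv, s1, h1, h2⟩
    obtain ⟨s2, h3, h4⟩ := (gacc_phase2 s1 l.length le_rfl).1 h2
    have h5 : GAcc s2 (cj M l v (Sum.inl ⟨2 * l.length, by omega⟩) 0 l.length) := by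
      convert h4 using 2
      · congr 2
        omega
      · omega
    obtain ⟨s3, h6, h7⟩ := gacc_last.1 h5
    obtain ⟨c, hc, hacc⟩ := (gacc_iff_exists rfl).1 h7
    obtain ⟨w, hw1, hw2, rfl⟩ := exists_word_of_rf hv hc
    exact ⟨w, hw1, hv, hw2, s3, by omega, acceptsIn_iff_accF.2 hacc⟩
  · rintro ⟨w, hw1, hv, hw2, s', h1, hacc⟩
    refine ⟨hv, s' + 1 + l.length, by omega, (gacc_phase2 _ l.length le_rfl).2
      ⟨s' + 1, rfl, ?_⟩⟩
    have h5 : GAcc (s' + 1) (cj M l v (Sum.inl ⟨2 * l.length, by omega⟩) 0 l.length) :=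
      gacc_last.2 ⟨s', rfl, (gacc_iff_exists rfl).2 ⟨_, rf_of_word hw1 hw2,
        acceptsIn_iff_accF.1 hacc⟩⟩
    convert h5 using 2
    · congr 2
      omega
    · omega

end Pool.Agent.H71.SD
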