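import Pool.Agent.H71.SD.Basic
import Pool.Agent.H71.SD.Guess

/-!
The criterion for time bounds `t` with `inf {t n | n ≥ m} = m ^ o(1)`.
-/

namespace Pool.Agent.H71.SD

open Pool.Agent.Lead.NTM Filter

/-- The nondecreasing minorant of `t` is `m ^ o(1)`. -/
def SlowMin (t : ℕ → ℕ) : Prop := ∀ k : ℕ, ∀ᶠ m in atTop, ∃ n ≥ m, t n ^ k < m

theorem SlowMin.frequently {t : ℕ → ℕ} (h : SlowMin t) (k : ℕ) : ∃ᶠ n in atTop, t n ^ k < n := by
  rw [frequently_atTop]
  intro B
  obtain ⟨m, hm, n, hn, h1⟩ := ((eventually_ge_atTop B).and (h k)).exists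
  exact ⟨n, hm.trans hn, h1.trans_le hn⟩

theorem SlowMin.eval {t : ℕ → ℕ} (h : SlowMin t) (p : Polynomial ℕ) :
    ∃ m0, ∀ m ≥ m0, ∃ n ≥ m, p.eval (t n) < m := by
  obtain ⟨k, C, hkC⟩ := eval_lt_of_pow_lt p
  obtain ⟨m0, hm0⟩ := eventually_atTop.1 ((h k).and (eventually_gt_atTop C))
  refine ⟨m0, fun m hm => ?_⟩
  obtain ⟨⟨n, hn, h1⟩, h2⟩ := hm0 m hm
  exact ⟨n, hn, hkC _ _ h1 h2⟩

/-- If `t` does not tend to infinity, its nondecreasing minorant is bounded. -/
theorem slowMin_of_frequently {t : ℕ → ℕ} {c : ℕ} (h : ∃ᶠ n in atTop, t n ≤ c) : SlowMin t := by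
  intro k
  filter_upwards [eventually_gt_atTop (c ^ k)] with m hm
  obtain ⟨n, hn, h1⟩ := (frequently_atTop.1 h) m
  exact ⟨n, hn, (Nat.pow_le_pow_left h1 k).trans_lt hm⟩

section

variable {A : Type} {M : Machine A} {L : Set (List A)} {t : ℕ → ℕ} {p : Polynomial ℕ} {m0 : ℕ}

variable (M m0) in
/-- The words with an accepting computation of length less than `m0` and at most their length. -/
def Dd : Set (List A) := {w | ∃ j < m0, j ≤ w.length ∧ AcceptsIn M w j}

theorem dd_congr {w w' : List A} (h : w.take m0 = w'.take m0) : w ∈ Dd M m0 → w' ∈ Dd M m0 := by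
  rintro ⟨j, h1, h2, h3⟩
  have hlen := congrArg List.length h
  simp only [List.length_take] at hlen
  refine ⟨j, h1, by omega, acceptsIn_congr ?_ h3⟩
  have h4 : (w.take m0).take j = (w'.take m0).take j := by rw [h]
  rwa [List.take_take, List.take_take, min_eq_left h1.le] at h4

theorem dd_iff {w w' : List A} (h : w.take m0 = w'.take m0) : w ∈ Dd M m0 ↔ w' ∈ Dd M m0 :=
  ⟨dd_congr h, dd_congr h.symm⟩

theorem mem_dd_of_short [Nonempty A] (hM : ∀ w, w ∈ L ↔ Accepts M w)
    (hp : ∀ w ∈ L, ∃ s ≤ p.eval (t w.length), AcceptsIn M w s)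
    (hm0 : ∀ m ≥ m0, ∃ n ≥ m, p.eval (t n) < m) {w : List A} {j : ℕ} (hj : j ≤ w.length)
    (hacc : AcceptsIn M w j) : w ∈ Dd M m0 := by
  classical
  obtain ⟨a⟩ := ‹Nonempty A›
  have hex : ∃ j, AcceptsIn M w j := ⟨j, hacc⟩
  set i := Nat.find hex with hi
  have hi1 : AcceptsIn M w i := Nat.find_spec hex
  have hi2 : i ≤ j := Nat.find_min' hex hacc
  refine ⟨i, ?_, by omega, hi1⟩
  by_contra hcon
  obtain ⟨n, hn, hlt⟩ := hm0 i (by omega)
  set x : List A := w.take i ++ List.replicate (n - i) a with hx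
  have hxl : x.length = n := by
    rw [hx, List.length_append, List.length_take, List.length_replicate]
    omega
  have hx1 : AcceptsIn M x i := by
    refine acceptsIn_congr ?_ hi1
    rw [hx, List.take_append_of_le_length (by rw [List.length_take]; omega), List.take_take,
      min_self]
  obtain ⟨s, hs, hs1⟩ := hp x ((hM x).2 ⟨i, hx1⟩)
  rw [hxl] at hs
  have hsi : s < i := by omega
  have hws : AcceptsIn M w s := by
    refine acceptsIn_congr ?_ hs1
    rw [hx, List.take_append_of_le_length (by rw [List.length_take]; omega), List.take_take,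
      min_eq_left hsi.le]
  exact Nat.find_min hex hsi hws

end

/-- Closure forces the length sets to be finite. -/
theorem finite_of_closed' {t : ℕ → ℕ} (ht : ∀ k : ℕ, ∃ᶠ n in atTop, t n ^ k < n) {A : Type}
    [Finite A] [Nonempty A] (hcl : coNTIMEPol A t = NTIMEPol A t) (k : ℕ) (S : Set ℕ)
    (hS : ∀ n ∈ S, n ≤ t n ^ k + k) (hL : {w : List A | w.length ∈ S} ∈ NTIMEPol A t) :
    S.Finite := by
  by_contra hinf
  have hinf' : S.Infinite := hinf
  obtain ⟨N, hN⟩ := prefixDetermined_of_inter ht hL (by rw [hcl]; exact hL)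
  obtain ⟨a⟩ := ‹Nonempty A›
  obtain ⟨m, hm, hNm⟩ : ∃ m ∈ S, N ≤ m := by
    obtain ⟨m, hm, h⟩ := hinf'.exists_gt N
    exact ⟨m, hm, h.le⟩
  obtain ⟨n, hn, hNn⟩ := ((frequently_eval_lt ht
    (Polynomial.X ^ k + Polynomial.C k)).and_eventually (eventually_ge_atTop N)).exists
  have hnS : n ∉ S := fun hmem => by
    have := hS n hmem
    simp at hn
    omega
  have h1 : (List.replicate m a) ∈ {w : List A | w.length ∈ S} ↔
      (List.replicate n a) ∈ {w : List A | w.length ∈ S} := by
    apply hN
    rw [List.take_replicate, List.take_replicate, min_eq_left hNm, min_eq_left hNn]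
  simp only [Set.mem_ofPred_eq, List.length_replicate] at h1
  exact hnS (h1.1 hm)

/-- **The criterion.** -/
theorem closed_iff_finite {t : ℕ → ℕ} (ht : SlowMin t) (A : Type) [Finite A] [Nonempty A] :
    coNTIMEPol A t = NTIMEPol A t ↔ ∀ (k : ℕ) (S : Set ℕ), (∀ n ∈ S, n ≤ t n ^ k + k) →
      {w : List A | w.length ∈ S} ∈ NTIMEPol A t → S.Finite := by
  classical
  constructor
  · exact finite_of_closed' ht.frequently
  · intro hcrit
    refine closed_of_eq (Set.Subset.antisymm ?_ (fun L hL => prefixDetermined_mem t hL))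
    rintro L ⟨M, p, hM, hp⟩
    obtain ⟨k, hk⟩ := Pool.Agent.H71.NT.exists_pow_bound p
    obtain ⟨m0, hm0⟩ := ht.eval p
    have hshort : ∀ {w : List A} {j : ℕ}, j ≤ w.length → AcceptsIn M w j → w ∈ Dd M m0 :=
      fun hj hacc => mem_dd_of_short hM hp hm0 hj hacc
    have hDL : ∀ w ∈ Dd M m0, w ∈ L := fun w ⟨j, _, _, h⟩ => (hM w).2 ⟨j, h⟩
    have hlong : ∀ w ∈ L, w ∉ Dd M m0 → w.length ≤ t w.length ^ k + k := by
      intro w hw hwD
      obtain ⟨s, hs, hacc⟩ := hp w hw
      by_contra hcon
      exact hwD (hshort (by have := hk (t w.length); omega) hacc)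
    by_cases hbd : ∃ B, ∀ w ∈ L, w ∉ Dd M m0 → w.length ≤ B
    · obtain ⟨B, hB⟩ := hbd
      refine ⟨m0 + B + 1, fun w w' hww => ?_⟩
      by_cases hw : m0 + B + 1 ≤ w.length
      · have hw' : m0 + B + 1 ≤ w'.length := by
          have := congrArg List.length hww
          simp at this
          omega
        have hD : w.take m0 = w'.take m0 := by
          have h4 : (w.take (m0 + B + 1)).take m0 = (w'.take (m0 + B + 1)).take m0 := by
            rw [hww]
          rwa [List.take_take, List.take_take, min_eq_left (by omega)] at h4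
        have key : ∀ u : List A, m0 + B + 1 ≤ u.length → (u ∈ L ↔ u ∈ Dd M m0) := by
          intro u hu
          refine ⟨fun h => ?_, hDL u⟩
          by_contra hcon
          have := hB u h hcon
          omega
        rw [key w hw, key w' hw']
        exact dd_iff hD
      · have hw' : w'.length < m0 + B + 1 := by
          have := congrArg List.length hww
          simp at this
          omega
        rw [List.take_of_length_le (by omega), List.take_of_length_le (by omega)] at hww
        rw [hww]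
    · exfalso
      push Not at hbd
      -- a prefix
      have hpig : ∃ l : List A, l.length = m0 ∧ ∀ B, ∃ w ∈ L, w ∉ Dd M m0 ∧ B < w.length ∧
          w.take m0 = l := by
        by_contra hcon
        push Not at hcon
        choose! f hf using hcon
        have hfin : Set.Finite {l : List A | l.length = m0} := List.finite_length_eq A m0
        obtain ⟨w, hw1, hw2, hw3⟩ := hbd (hfin.toFinset.sup f + m0)
        have hl : (w.take m0).length = m0 := by
          rw [List.length_take]
          omega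
        refine hf (w.take m0) hl w hw1 hw2 ?_ rfl
        have h5 : f (w.take m0) ≤ hfin.toFinset.sup f := Finset.le_sup (by simpa using hl)
        omega
      obtain ⟨l, hl, hbig⟩ := hpig
      set S : Set ℕ := {n | m0 ≤ n ∧ ∃ w ∈ L, w.length = n ∧ w.take m0 = l} with hS
      obtain ⟨w0, -, hw0D, hw0l, hw0t⟩ := hbig m0
      have hnD : ∀ w : List A, w.take m0 = l → w ∉ Dd M m0 := fun w hw hwD =>
        hw0D (dd_congr (hw.trans hw0t.symm) hwD)
      have hfinS : S.Finite := by
        refine hcrit k S ?_ ?_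
        · rintro n ⟨-, w, hw, rfl, hwt⟩
          exact hlong w hw (hnD w hwt)
        · refine ⟨pm M l, p + Polynomial.C (2 * m0 + 1), fun v => ?_, fun v hv => ?_⟩
          · unfold Accepts
            simp only [acceptsIn_pm]
            constructor
            · rintro ⟨h1, w, hw, hwl, hwt⟩
              obtain ⟨s, -, hs⟩ := hp w hw
              exact ⟨s + (2 * l.length + 1), w, hwl, by rw [hl]; exact h1, by rw [hl]; exact hwt,
                s, rfl, hs⟩
            · rintro ⟨s, w, hwl, h1, hwt, s', -, hs'⟩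
              rw [hl] at h1 hwt
              exact ⟨h1, w, (hM w).2 ⟨s', hs'⟩, hwl, hwt⟩
          · obtain ⟨h1, w, hw, hwl, hwt⟩ := hv
            obtain ⟨s, hs, hacc⟩ := hp w hw
            refine ⟨s + (2 * m0 + 1), ?_, acceptsIn_pm.2 ⟨w, hwl, by rw [hl]; exact h1,
              by rw [hl]; exact hwt, s, by rw [hl], hacc⟩⟩
            rw [Polynomial.eval_add, Polynomial.eval_C]
            rw [hwl] at hs
            omega
      obtain ⟨B, hB⟩ := hfinS.bddAbove
      obtain ⟨w, hw1, -, hw3, hw4⟩ := hbig (B + m0)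
      have h6 : w.length ∈ S := ⟨by omega, w, hw1, rfl, hw4⟩
      have := hB h6
      omega

end Pool.Agent.H71.SD
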