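import Pool.Agent.H71.SD.NPSet
import Pool.Agent.H83.NT.Main

/-!
`Π⁰₃`-completeness of closure for time bounds `t ≤ id` which are infinitely often below every
power `n ^ ε`.
-/

namespace Pool.Agent.H71.SD

open Function Pool.Agent.Lead.NTM Pool.Agent.H71.NT Pool.Agent.H79.Cx Filter Encodable Denumerable
open Nat.Partrec (Code)
open Pool.Agent.H83.NT (IsPi3 IndexSet P3 ex exists_ex ex_some computable_exS computable_exV
  isPi3_total IsPi3.inter ev computable_ev finite_events infinite_events isPi3_closed exists_codes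
  gs_le computable_and computable_len)

/-! ### The upper bound -/

theorem indexSet_inter (P Q : (ℕ → ℕ) → Prop) :
    (IndexSet fun t => P t ∧ Q t) = IndexSet P ∩ IndexSet Q := by
  ext x
  constructor
  · rintro ⟨t, h1, h2, h3⟩
    exact ⟨⟨t, h1, h2⟩, ⟨t, h1, h3⟩⟩
  · rintro ⟨⟨t, h1, h2⟩, ⟨t', h1', h3⟩⟩
    have : t' = t := funext fun n => Part.mem_unique (h1' n) (h1 n)
    subst this
    exact ⟨t', h1, h2, h3⟩

theorem isPi3_of {P : (ℕ → ℕ) → Prop} {φ : ℕ → ℕ → ℕ} {r : ℕ → ℕ → ℕ → Bool}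
    (hφ : Computable₂ φ) (hr : Computable fun q : (ℕ × ℕ) × ℕ => r q.1.1 q.1.2 q.2)
    (h : ∀ t, P t ↔ ∀ a, ∃ b, r a b (t (φ a b)) = true) : IsPi3 (IndexSet P) := by
  have hR : IsPi3 {x | ∀ a, ∃ b : ℕ, ∀ c : ℕ, ((ex (b.unpair.2, x) (φ a b.unpair.1)).isSome &&
      r a b.unpair.1 ((ex (b.unpair.2, x) (φ a b.unpair.1)).getD 0)) = true} := by
    refine ⟨fun x a b _ => (ex (b.unpair.2, x) (φ a b.unpair.1)).isSome &&
      r a b.unpair.1 ((ex (b.unpair.2, x) (φ a b.unpair.1)).getD 0), ?_, fun x => Iff.rfl⟩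
    have hb : Computable fun q : (ℕ × ℕ) × (ℕ × ℕ) => q.2.1 :=
      Computable.fst.comp Computable.snd
    have hb1 : Computable fun q : (ℕ × ℕ) × (ℕ × ℕ) => q.2.1.unpair.1 :=
      Computable.fst.comp (Computable.unpair.comp hb)
    have hb2 : Computable fun q : (ℕ × ℕ) × (ℕ × ℕ) => q.2.1.unpair.2 :=
      Computable.snd.comp (Computable.unpair.comp hb)
    have hx : Computable fun q : (ℕ × ℕ) × (ℕ × ℕ) => q.1.1 := Computable.fst.comp Computable.fst
    have ha : Computable fun q : (ℕ × ℕ) × (ℕ × ℕ) => q.1.2 := Computable.snd.comp Computable.fst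
    have hf := hφ.comp ha hb1
    have h1 := computable_exS.comp (hb2.pair hx) hf
    have h2 := computable_exV.comp (hb2.pair hx) hf
    have h3 := hr.comp ((ha.pair hb1).pair h2)
    exact computable_and.comp h1 h3
  have heq : IndexSet P = (IndexSet fun _ => True) ∩
      {x | ∀ a, ∃ b : ℕ, ∀ c : ℕ, ((ex (b.unpair.2, x) (φ a b.unpair.1)).isSome &&
      r a b.unpair.1 ((ex (b.unpair.2, x) (φ a b.unpair.1)).getD 0)) = true} := by
    ext x
    constructor
    · rintro ⟨t, ht, hP⟩
      refine ⟨⟨t, ht, trivial⟩, fun a => ?_⟩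
      obtain ⟨b, hb⟩ := (h t).1 hP a
      obtain ⟨k, hk⟩ := exists_ex (ht (φ a b))
      refine ⟨Nat.pair b k, fun _ => ?_⟩
      rw [Nat.unpair_pair, hk]
      simpa using hb
    · rintro ⟨⟨t, ht, -⟩, hx⟩
      refine ⟨t, ht, (h t).2 fun a => ?_⟩
      obtain ⟨b, hb⟩ := hx a
      have h1 := hb 0
      rw [Bool.and_eq_true] at h1
      obtain ⟨v, hv⟩ := Option.isSome_iff_exists.1 h1.1
      refine ⟨b.unpair.1, ?_⟩
      rw [hv] at h1
      rw [← ex_some hv (ht _)]
      exact h1.2
  rw [heq]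
  exact isPi3_total.inter hR

/-- The region. -/
def Reg (t : ℕ → ℕ) : Prop := (∀ n, t n ≤ n) ∧ ∀ k : ℕ, ∃ᶠ n in atTop, t n ^ k < n

theorem isPi3_reg : IsPi3 (IndexSet Reg) := by
  have h1 : IsPi3 (IndexSet fun t : ℕ → ℕ => ∀ n, t n ≤ n) := by
    refine isPi3_of (φ := fun a _ => a) (r := fun a _ v => decide (v ≤ a)) Computable.fst ?_ ?_
    · exact computable_len.comp Computable.snd (Computable.fst.comp Computable.fst)
    · intro t
      constructor
      · exact fun h a => ⟨0, decide_eq_true (h a)⟩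
      · intro h n
        obtain ⟨-, h2⟩ := h n
        exact of_decide_eq_true h2
  have h2 : IsPi3 (IndexSet fun t : ℕ → ℕ => ∀ k : ℕ, ∃ᶠ n in atTop, t n ^ k < n) := by
    refine isPi3_of (φ := fun _ b => b)
      (r := fun a b v => decide (a.unpair.2 ≤ b) && decide (v ^ a.unpair.1 < b))
      Computable.snd ?_ ?_
    · have ha : Computable fun q : (ℕ × ℕ) × ℕ => q.1.1 := Computable.fst.comp Computable.fst
      have hb : Computable fun q : (ℕ × ℕ) × ℕ => q.1.2 := Computable.snd.comp Computable.fst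
      have hp : Computable fun q : (ℕ × ℕ) × ℕ => q.2 ^ q.1.1.unpair.1 :=
        (Primrec₂.to_comp primrec_pow).comp Computable.snd
          (Computable.fst.comp (Computable.unpair.comp ha))
      exact computable_and.comp
        (computable_len.comp (Computable.snd.comp (Computable.unpair.comp ha)) hb)
        (computable_lt'.comp hp hb)
    · intro t
      simp only [Bool.and_eq_true, decide_eq_true_eq, frequently_atTop]
      constructor
      · intro h a
        obtain ⟨b, h1, h2⟩ := h a.unpair.1 a.unpair.2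
        exact ⟨b, h1, h2⟩
      · intro h k B
        obtain ⟨b, h1, h2⟩ := h (Nat.pair k B)
        rw [Nat.unpair_pair] at h1 h2
        exact ⟨b, h1, h2⟩
  have h3 := h1.inter h2
  rw [← indexSet_inter] at h3
  exact h3

theorem isPi3_upper (A : Type) [Finite A] :
    IsPi3 (IndexSet fun t => Reg t ∧ NTIMEPol A t = coNTIMEPol A t) := by
  rw [indexSet_inter]
  exact isPi3_reg.inter (isPi3_closed A)

/-! ### A machine with unique acceptance times -/

theorem exists_timed {p : ℕ → Prop} (hp : REPred p) : ∃ M : Machine Unit,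
    (∀ z, p z ↔ ∃ s, AcceptsIn M (List.replicate z ()) s) ∧
    ∀ z s s', AcceptsIn M (List.replicate z ()) s → AcceptsIn M (List.replicate z ()) s' →
      s = s' := by
  obtain ⟨ins, N, R, q₀, hq0, hR0, hN, hR, hK⟩ := Pool.Agent.H83.exists_machine hp
  obtain ⟨k, rfl⟩ : ∃ k, R = k + 1 := ⟨R - 1, by omega⟩
  have : NeZero N := ⟨by omega⟩
  refine ⟨cmach Unit ins k 1 N 0 q₀, fun z => ?_, fun z s s' h h' => ?_⟩
  · rw [hK]
    constructor
    · intro h
      obtain ⟨j, hj⟩ := exists_haltsAt h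
      refine ⟨z + 3 + j, (acceptsIn_cmach _ hN hR hq0 _).2 ⟨?_, j, ?_, ?_⟩⟩
      · exact Nat.mod_one _
      · rwa [List.length_replicate]
      · rw [List.length_replicate]
    · rintro ⟨s, hs⟩
      obtain ⟨-, j, hj, -⟩ := (acceptsIn_cmach _ hN hR hq0 _).1 hs
      rw [List.length_replicate] at hj
      exact ⟨j, hj.1⟩
  · obtain ⟨-, j, hj, rfl⟩ := (acceptsIn_cmach _ hN hR hq0 _).1 h
    obtain ⟨-, j', hj', rfl⟩ := (acceptsIn_cmach _ hN hR hq0 _).1 h'
    rw [hj.unique hj']

/-! ### Roots -/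

/-- The integer part of the `k`-th root. -/
def rt (k n : ℕ) : ℕ := Nat.findGreatest (fun r => r ^ k ≤ n) n

theorem primrec_rt : Primrec₂ rt := by
  have h : Primrec fun p : ℕ × ℕ => Nat.findGreatest (fun r => r ^ p.1 ≤ p.2) p.2 := by
    refine Primrec.nat_findGreatest (p := fun (p : ℕ × ℕ) r => r ^ p.1 ≤ p.2) Primrec.snd ?_
    exact Primrec.nat_le.comp (primrec_pow.comp Primrec.snd (Primrec.fst.comp Primrec.fst))
      (Primrec.snd.comp Primrec.fst)
  exact h

theorem rt_le (k n : ℕ) : rt k n ≤ n := Nat.findGreatest_le n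

theorem rt_pow_le {k : ℕ} (hk : k ≠ 0) (n : ℕ) : rt k n ^ k ≤ n := by
  unfold rt
  refine Nat.findGreatest_spec (P := fun r => r ^ k ≤ n) (m := 0) (Nat.zero_le n) ?_
  rw [Nat.zero_pow (Nat.pos_of_ne_zero hk)]
  exact Nat.zero_le n

theorem lt_rt_succ {k : ℕ} (hk : k ≠ 0) (n : ℕ) : n < (rt k n + 1) ^ k := by
  rcases Nat.lt_or_ge n (rt k n + 1) with h | h
  · calc n < rt k n + 1 := h
      _ ≤ (rt k n + 1) ^ k := Nat.le_self_pow hk _
  · by_contra hcon
    push Not at hcon
    have h1 := Nat.le_findGreatest (P := fun r => r ^ k ≤ n) h hcon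
    have h2 : rt k n + 1 ≤ rt k n := h1
    omega

theorem root_bound {r a n : ℕ} (h3 : n < (r + 1) ^ (a + 1)) :
    n ≤ r ^ (2 * (a + 1) + 2 ^ (a + 1)) + (2 * (a + 1) + 2 ^ (a + 1)) := by
  generalize hc : 2 ^ (a + 1) = c
  rcases Nat.lt_or_ge r 2 with h4 | h4
  · have h5 : (r + 1) ^ (a + 1) ≤ 2 ^ (a + 1) := Nat.pow_le_pow_left (by omega) _
    rw [hc] at h5
    generalize r ^ (2 * (a + 1) + c) = y
    generalize (r + 1) ^ (a + 1) = v at h3 h5
    omega
  · have h5 : r + 1 ≤ r ^ 2 := by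
      rw [sq]
      have : 2 * r ≤ r * r := Nat.mul_le_mul_right _ h4
      omega
    have h6 : (r + 1) ^ (a + 1) ≤ r ^ (2 * (a + 1)) := by
      rw [pow_mul]
      exact Nat.pow_le_pow_left h5 _
    have h7 : r ^ (2 * (a + 1)) ≤ r ^ (2 * (a + 1) + c) :=
      Nat.pow_le_pow_right (by omega) (by omega)
    generalize r ^ (2 * (a + 1) + c) = y at h7 ⊢
    generalize r ^ (2 * (a + 1)) = z at h6 h7
    generalize (r + 1) ^ (a + 1) = v at h3 h6
    omega

/-! ### The time bounds -/

section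

variable (M : Machine Unit)

/-- An accepted code. -/
def acc (x n : ℕ) : Prop :=
  AcceptsIn M (List.replicate (Nat.pair x n.unpair.1) ()) n.unpair.2

theorem primrec_acc : PrimrecPred fun p : ℕ × ℕ => acc M p.1 p.2 := by
  have h1 : Primrec fun p : ℕ × ℕ => (Nat.pair p.1 p.2.unpair.1, p.2.unpair.2) :=
    (Primrec₂.natPair.comp Primrec.fst (Primrec.fst.comp (Primrec.unpair.comp Primrec.snd))).pair
      (Primrec.snd.comp (Primrec.unpair.comp Primrec.snd))
  exact (primrecPred_acceptsIn M ()).comp h1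

open Classical in
/-- The time bounds. -/
noncomputable def tx (x n : ℕ) : ℕ :=
  if acc M x n then rt (n.unpair.1.unpair.1 + 1) n else 0

theorem computable_tx : Computable₂ (tx M) := by
  classical
  have h1 : Primrec fun p : ℕ × ℕ => rt (p.2.unpair.1.unpair.1 + 1) p.2 :=
    primrec_rt.comp (Primrec.succ.comp (Primrec.fst.comp (Primrec.unpair.comp
      (Primrec.fst.comp (Primrec.unpair.comp Primrec.snd))))) Primrec.snd
  have h2 : Primrec fun p : ℕ × ℕ => tx M p.1 p.2 :=
    Primrec.ite (primrec_acc M) h1 (Primrec.const 0)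
  exact h2.to_comp

theorem tx_le (x n : ℕ) : tx M x n ≤ n := by
  classical
  unfold tx
  split_ifs
  · exact rt_le _ _
  · exact Nat.zero_le _

variable {M} (hu : ∀ z s s', AcceptsIn M (List.replicate z ()) s →
  AcceptsIn M (List.replicate z ()) s' → s = s')

include hu in
theorem frequently_tx (x k : ℕ) : ∃ᶠ n in atTop, tx M x n ^ k < n := by
  classical
  rw [frequently_atTop]
  intro B
  obtain ⟨σ, hσ, hn⟩ : ∃ σ, B + 2 ≤ σ ∧ ¬ acc M x (Nat.pair 0 σ) := by
    by_contra hcon
    push Not at hcon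
    have h1 := hcon (B + 2) le_rfl
    have h2 := hcon (B + 3) (by omega)
    unfold acc at h1 h2
    rw [Nat.unpair_pair] at h1 h2
    have := hu _ _ _ h1 h2
    omega
  have h3 := Nat.right_le_pair 0 σ
  refine ⟨Nat.pair 0 σ, by omega, ?_⟩
  unfold tx
  rw [if_neg hn]
  calc 0 ^ k ≤ 1 := by
        rcases Nat.eq_zero_or_pos k with rfl | hk
        · simp
        · rw [Nat.zero_pow hk]; omega
    _ < _ := by omega

include hu in
/-- Subpolynomial time bounds. -/
theorem eventually_tx {x : ℕ} (hfin : ∀ a, ∃ N, ∀ s σ, acc M x (Nat.pair (Nat.pair a s) σ) →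
    s < N) (k : ℕ) : ∀ᶠ n in atTop, tx M x n ^ k < n := by
  classical
  choose N hN using hfin
  have hF : {n | acc M x n ∧ n.unpair.1.unpair.1 < k}.Finite := by
    refine Set.Finite.of_finite_image (f := fun n : ℕ => n.unpair.1) ?_ ?_
    · refine Set.Finite.subset
        (((Finset.range k ×ˢ Finset.range (∑ a ∈ Finset.range k, N a)).image
          fun q => Nat.pair q.1 q.2).finite_toSet) ?_
      rintro y ⟨n, ⟨h1, h2⟩, rfl⟩
      simp only [Finset.coe_image, Set.mem_image, Finset.mem_coe, Finset.mem_product,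
        Finset.mem_range]
      refine ⟨(n.unpair.1.unpair.1, n.unpair.1.unpair.2), ⟨h2, ?_⟩, Nat.pair_unpair _⟩
      have h3 : n.unpair.1.unpair.2 < N n.unpair.1.unpair.1 := by
        refine hN _ _ n.unpair.2 ?_
        rw [Nat.pair_unpair, Nat.pair_unpair]
        exact h1
      have h4 : N n.unpair.1.unpair.1 ≤ ∑ a ∈ Finset.range k, N a :=
        Finset.single_le_sum (f := N) (fun _ _ => Nat.zero_le _) (Finset.mem_range.2 h2)
      exact h3.trans_le h4
    · rintro n ⟨h1, -⟩ n' ⟨h1', -⟩ heq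
      have heq' : n.unpair.1 = n'.unpair.1 := heq
      unfold acc at h1 h1'
      rw [heq'] at h1
      have h2 := hu _ _ _ h1 h1'
      rw [← Nat.pair_unpair n, ← Nat.pair_unpair n', heq', h2]
  obtain ⟨B, hB⟩ := hF.bddAbove
  filter_upwards [eventually_gt_atTop (B + 2)] with n hn
  unfold tx
  split_ifs with h
  · have hk : k ≤ n.unpair.1.unpair.1 := by
      by_contra hcon
      have := hB ⟨h, by omega⟩
      omega
    set a := n.unpair.1.unpair.1 with ha
    have h1 := rt_pow_le (Nat.succ_ne_zero a) n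
    rcases Nat.lt_or_ge (rt (a + 1) n) 2 with h2 | h2
    · calc rt (a + 1) n ^ k ≤ 1 ^ k := Nat.pow_le_pow_left (by omega) k
        _ = 1 := one_pow k
        _ < n := by omega
    · calc rt (a + 1) n ^ k < rt (a + 1) n ^ (a + 1) :=
            Nat.pow_lt_pow_right (by omega) (by omega)
        _ ≤ n := h1
  · calc 0 ^ k ≤ 1 := by
          rcases Nat.eq_zero_or_pos k with rfl | hk
          · simp
          · rw [Nat.zero_pow hk]; omega
      _ < _ := by omega

/-- The verification function. -/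
noncomputable def vfy (M : Machine Unit) (x a : ℕ) (z : ℕ × List Bool) : Bool :=
  decide (z.1 = Nat.pair (Nat.pair a (Desc.at2 (decLL (parse z.2)) 0 0))
    ((decLL (parse z.2)).getD 1 []).length) &&
  ((descM M ()).valid (Nat.pair x (Nat.pair a (Desc.at2 (decLL (parse z.2)) 0 0)))
    ((decLL (parse z.2)).getD 1 []) &&
  (descM M ()).acc ((decLL (parse z.2)).getD 1 []))

theorem pt_vfy (M : Machine Unit) (x a : ℕ) : PT (vfy M x a) := by
  show PT fun z => vfy M x a z
  unfold vfy
  fun_prop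

/-- The lengths for the strategy `a`. -/
def Da (M : Machine Unit) (x a : ℕ) : Set ℕ := {n | acc M x n ∧ n.unpair.1.unpair.1 = a}

theorem Da_mem_np (x a : ℕ) (A : Type) :
    {w : List A | w.length ∈ Da M x a} ∈ NTIMEPol A id := by
  refine mem_np_of_cert (pt_vfy M x a) (S := Da M x a) (fun n y h => ?_)
    (8 + 4 * Polynomial.X + Polynomial.X * Polynomial.C (2 * (descM M ()).nr + 2))
    (fun n hn => ?_) A
  · unfold vfy at h
    simp only [Bool.and_eq_true, decide_eq_true_eq] at h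
    obtain ⟨h1, h2, h3⟩ := h
    refine ⟨?_, ?_⟩
    · unfold acc
      rw [acceptsIn_iff_desc, h1, Nat.unpair_pair]
      exact ⟨_, rfl, h2, h3⟩
    · rw [h1, Nat.unpair_pair]
      simp
  · obtain ⟨hacc, ha⟩ := hn
    unfold acc at hacc
    rw [acceptsIn_iff_desc] at hacc
    obtain ⟨h, hl, hv, hac⟩ := hacc
    set s := n.unpair.1.unpair.2 with hs
    have hn1 : n.unpair.1 = Nat.pair a s := by
      rw [hs, ← ha, Nat.pair_unpair]
    refine ⟨cd [[s], h], ?_, ?_⟩
    · unfold vfy
      have h0 : decLL (parse (cd [[s], h])) = [[s], h] := by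
        rw [parse_cd, decLL_enc]
      simp only [h0, Bool.and_eq_true, decide_eq_true_eq]
      have h1 : Desc.at2 [[s], h] 0 0 = s := rfl
      have h2 : ([[s], h] : List (List ℕ)).getD 1 [] = h := rfl
      rw [h1, h2, hl]
      refine ⟨?_, ?_, hac⟩
      · rw [← hn1, Nat.pair_unpair]
      · rw [← hn1]
        exact hv
    · rw [length_cd]
      have e1 : sz [[s], h] = 1 + (1 + (2 * s + 1) + 1) + (1 + sz h + 1) ∨
          sz [[s], h] ≤ 1 + (1 + (2 * s + 1) + 1) + (1 + sz h + 1) := by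
        right
        simp only [sz_cons, sz_nil, sz_nat]
        omega
      have e1' : sz [[s], h] ≤ 1 + (1 + (2 * s + 1) + 1) + (1 + sz h + 1) := by
        rcases e1 with e1 | e1 <;> omega
      have e2 : sz h ≤ 1 + h.length * (2 * (descM M ()).nr + 2) :=
        sz_hist_le (Desc.lt_of_valid hv)
      have h3 : h.length ≤ n := hl ▸ Nat.unpair_right_le n
      have h4 : s ≤ n := (Nat.unpair_right_le _).trans (Nat.unpair_left_le n)
      have e3 : h.length * (2 * (descM M ()).nr + 2) ≤ n * (2 * (descM M ()).nr + 2) :=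
        Nat.mul_le_mul_right _ h3
      simp only [Polynomial.eval_add, Polynomial.eval_mul, Polynomial.eval_ofNat,
        Polynomial.eval_X, Polynomial.eval_C]
      omega

include hu in
/-- Failure of closure. -/
theorem not_closed_tx {x a : ℕ} (hinf : ∀ B, ∃ s σ, B ≤ s ∧
    acc M x (Nat.pair (Nat.pair a s) σ)) (A : Type) [Finite A] [Nonempty A] :
    coNTIMEPol A (tx M x) ≠ NTIMEPol A (tx M x) := by
  classical
  refine not_closed_of_np (frequently_tx hu x) (k := 2 * (a + 1) + 2 ^ (a + 1))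
    (S := Da M x a) ?_ ?_ (Da_mem_np x a A)
  · refine Set.infinite_of_not_bddAbove ?_
    rintro ⟨B, hB⟩
    obtain ⟨s, σ, h1, h2⟩ := hinf (B + 1)
    have h3 : Nat.pair (Nat.pair a s) σ ∈ Da M x a := ⟨h2, by simp⟩
    have h4 := hB h3
    have h5 := Nat.left_le_pair (Nat.pair a s) σ
    have h6 := Nat.right_le_pair a s
    omega
  · rintro n ⟨h1, h2⟩
    unfold tx
    rw [if_pos h1, h2]
    exact root_bound (lt_rt_succ (Nat.succ_ne_zero a) n)

end

/-- The reduction. -/
theorem exists_reduction {S : Set ℕ} (hS : IsPi3 S) : ∃ f : ℕ → ℕ, Computable f ∧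
    ∀ x, ∃ t : ℕ → ℕ, (∀ n, t n ∈ (ofNat Code (f x)).eval n) ∧ Reg t ∧
      (x ∈ S → ∀ k : ℕ, ∀ᶠ n in atTop, t n ^ k < n) ∧
      (x ∉ S → ∀ (A : Type) [Finite A] [Nonempty A], coNTIMEPol A t ≠ NTIMEPol A t) := by
  obtain ⟨R, hR, hRS⟩ := hS
  let W : P3 := ⟨R, hR⟩
  have hW : ∀ x, x ∈ S ↔ ∀ a, ∃ b, ∀ c, W.R x a b c = true := hRS
  have hre : REPred fun z : ℕ =>
      ev W (z.unpair.1, z.unpair.2.unpair.1) z.unpair.2.unpair.2 = true := by
    refine ComputablePred.to_re ?_
    have hz2 : Computable fun z : ℕ => z.unpair.2.unpair := Computable.unpair.comp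
      (Computable.snd.comp Computable.unpair)
    have hf : Computable fun z : ℕ =>
        ev W (z.unpair.1, z.unpair.2.unpair.1) z.unpair.2.unpair.2 :=
      (computable_ev W).comp ((Computable.fst.comp Computable.unpair).pair
        (Computable.fst.comp hz2)) (Computable.snd.comp hz2)
    refine ⟨inferInstance, hf.of_eq fun z => ?_⟩
    simp
  obtain ⟨M, hM, hu⟩ := exists_timed hre
  obtain ⟨f, hf, hft⟩ := exists_codes (computable_tx M)
  have hacc : ∀ x a s, ev W (x, a) s = true ↔ ∃ σ, acc M x (Nat.pair (Nat.pair a s) σ) := by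
    intro x a s
    have h1 := hM (Nat.pair x (Nat.pair a s))
    simp only [Nat.unpair_pair] at h1
    rw [h1]
    unfold acc
    simp only [Nat.unpair_pair]
  refine ⟨f, hf, fun x => ⟨tx M x, hft x, ⟨tx_le M x, frequently_tx hu x⟩, fun hx k => ?_,
    fun hx A _ _ => ?_⟩⟩
  · refine eventually_tx hu (fun a => ?_) k
    obtain ⟨N, hN⟩ := finite_events W (q := (x, a)) ((hW x).1 hx a)
    refine ⟨N, fun s σ h => ?_⟩
    by_contra hcon
    have h1 := hN s (by omega)
    rw [(hacc x a s).2 ⟨σ, h⟩] at h1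
    exact absurd h1 (by simp)
  · rw [hW] at hx
    push Not at hx
    obtain ⟨a, ha⟩ := hx
    refine not_closed_tx hu (x := x) (a := a) (fun B => ?_) A
    obtain ⟨s, h1, h2⟩ := infinite_events W (q := (x, a)) (by
      push Not
      exact ha) B
    obtain ⟨σ, h3⟩ := (hacc x a s).1 h2
    exact ⟨s, σ, h1 ▸ gs_le W _ s, h3⟩

end Pool.Agent.H71.SD
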