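import Pool.Agent.H71.SD.Criterion
import Pool.Agent.H71.SD.Pi3

/-!
The statement about `Π⁰₃` completeness.
-/

namespace Pool.Agent.H71.SD

open Pool.Agent.Lead.NTM Pool.Agent.H83.NT Filter

theorem index_iff {S : Set ℕ} (hS : IsPi3 S) : ∃ f : ℕ → ℕ, Computable f ∧
    ∀ (A : Type) [Finite A] [Nonempty A] (x : ℕ), x ∈ S ↔ f x ∈ IndexSet fun t =>
      ((∀ n, t n ≤ n) ∧ ∀ k : ℕ, ∃ᶠ n in atTop, t n ^ k < n) ∧
        NTIMEPol A t = coNTIMEPol A t := by
  obtain ⟨f, hf, h⟩ := exists_reduction hS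
  refine ⟨f, hf, fun A _ _ x => ?_⟩
  obtain ⟨t, ht, hreg, h1, h2⟩ := h x
  constructor
  · intro hx
    refine ⟨t, ht, hreg, ?_⟩
    refine (closed_of_eq (Set.Subset.antisymm (fun L hL => ?_)
      (fun L hL => prefixDetermined_mem t hL))).symm
    exact prefixDetermined_of_subpoly (h1 hx) hL
  · rintro ⟨t', ht', -, hcl⟩
    have htt : t' = t := funext fun n => Part.mem_unique (ht' n) (ht n)
    subst htt
    by_contra hx
    exact h2 hx A hcl.symm

theorem isPi3_upper' (A : Type) [Finite A] : IsPi3 (IndexSet fun t =>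
    ((∀ n, t n ≤ n) ∧ ∀ k : ℕ, ∃ᶠ n in atTop, t n ^ k < n) ∧
      NTIMEPol A t = coNTIMEPol A t) := isPi3_upper A

end Pool.Agent.H71.SD
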