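import Pool.Agent.H71.SD.Sparse

/-!
Nondecreasing time bounds `t ≤ G` with `t(n) = G(n)` on arbitrarily long intervals for which
`NTIME(Pol t)` consists of the prefix-determined languages.
-/

namespace Pool.Agent.H71.SD

open Function Pool.Agent.Lead.NTM Encodable Denumerable Filter
open Pool.Agent.H83.NT (eD Pl primrec_Pl primrec_eD Pl_mono computable_bex computable_and
  computable_not computable_len computable_eqn eM eC words accB mke)
open Pool.Agent.H71.NT (gg computable_gg le_gg strictMono_gg)

attribute [local irreducible] words accB mke eM eC eD Pl rel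

section

variable (G g : ℕ → ℕ)

/-- The left end points of the candidate intervals. -/
def bB (q : ℕ) : ℕ := Nat.rec (motive := fun _ => ℕ) 0
  (fun q b => gg g b + 1 + (G (gg g b) + q + 1) ^ (q + 1)) q

/-- The right end points. -/
def bC (q : ℕ) : ℕ := gg g (bB G g q)

theorem bB_succ (q : ℕ) : bB G g (q + 1) = bC G g q + 1 + (G (bC G g q) + q + 1) ^ (q + 1) := rfl

theorem le_bC (q : ℕ) : bB G g q ≤ bC G g q := (strictMono_gg g).le_apply

theorem bC_lt (q : ℕ) : bC G g q < bB G g (q + 1) := by
  rw [bB_succ]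
  omega

theorem strictMono_bB : StrictMono (bB G g) :=
  strictMono_nat_of_lt_succ fun q => (le_bC G g q).trans_lt (bC_lt G g q)

theorem monotone_bC : Monotone (bC G g) := fun _ _ h =>
  (strictMono_gg g).monotone ((strictMono_bB G g).monotone h)

theorem le_bB (q : ℕ) : q ≤ bB G g q := (strictMono_bB G g).le_apply

theorem Pl_lt {e q : ℕ} (h : e ≤ q) : Pl (eD e) (G (bC G g q)) < bB G g (q + 1) := by
  have h1 : eD e ≤ q := by
    unfold eD
    exact ((Nat.unpair_right_le _).trans (Nat.unpair_right_le e)).trans h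
  rw [bB_succ]
  unfold Pl
  calc (G (bC G g q) + eD e) ^ eD e ≤ (G (bC G g q) + q + 1) ^ eD e :=
        Nat.pow_le_pow_left (by omega) _
    _ ≤ (G (bC G g q) + q + 1) ^ (q + 1) := Nat.pow_le_pow_right (by omega) (by omega)
    _ < bC G g q + 1 + (G (bC G g q) + q + 1) ^ (q + 1) := by omega

/-- The requirement `e` has a relevant length in `[a, b)` outside `[c, d)`. -/
def relOut (e a b c d : ℕ) : Bool := decide (∃ n < b, (decide (a ≤ n) &&
  (!(decide (c ≤ n) && decide (n < d)) && rel G e n)) = true)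

theorem relOut_iff {e a b c d : ℕ} : relOut G e a b c d = true ↔
    ∃ n, a ≤ n ∧ n < b ∧ ¬ (c ≤ n ∧ n < d) ∧ rel G e n = true := by
  unfold relOut
  simp only [decide_eq_true_eq, Bool.and_eq_true, Bool.not_eq_true', ← Bool.not_eq_true]
  constructor
  · rintro ⟨n, h1, h2, h3, h4⟩
    exact ⟨n, h2, h1, h3, h4⟩
  · rintro ⟨n, h1, h2, h3, h4⟩
    exact ⟨n, h2, h1, h3, h4⟩

/-- All relevant lengths of the window of `q` are in the interval `q`, and there are some. -/
def bad (e q : ℕ) : Bool :=
  relOut G e (bB G g q) (bB G g (q + 1)) 0 0 &&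
    !(relOut G e (bB G g (q.sqrt * q.sqrt)) (bB G g ((q.sqrt + 1) * (q.sqrt + 1))) (bB G g q)
      (bB G g (q + 1)))

/-- No requirement `e` below the index of the window is bad. -/
def good (q : ℕ) : Bool := !(decide (∃ e < q.sqrt, bad G g e q = true))

/-- The first good interval of its window. -/
def sel (q : ℕ) : Bool := good G g q &&
  !(decide (∃ q' < q, (decide (q'.sqrt = q.sqrt) && good G g q') = true))

theorem bad_iff {e q : ℕ} : bad G g e q = true ↔
    (∃ n, bB G g q ≤ n ∧ n < bB G g (q + 1) ∧ rel G e n = true) ∧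
    ¬ ∃ n, bB G g (q.sqrt * q.sqrt) ≤ n ∧ n < bB G g ((q.sqrt + 1) * (q.sqrt + 1)) ∧
      ¬ (bB G g q ≤ n ∧ n < bB G g (q + 1)) ∧ rel G e n = true := by
  unfold bad
  rw [Bool.and_eq_true, Bool.not_eq_true', ← Bool.not_eq_true, relOut_iff, relOut_iff]
  simp

theorem good_iff {q : ℕ} : good G g q = true ↔ ∀ e < q.sqrt, ¬ bad G g e q = true := by
  unfold good
  simp only [Bool.not_eq_true', decide_eq_false_iff_not, not_exists, not_and]

theorem sel_iff {q : ℕ} : sel G g q = true ↔
    good G g q = true ∧ ∀ q' < q, q'.sqrt = q.sqrt → ¬ good G g q' = true := by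
  unfold sel
  simp only [Bool.and_eq_true, Bool.not_eq_true', decide_eq_false_iff_not, not_exists, not_and,
    decide_eq_true_eq]

theorem sel_unique {q q' : ℕ} (h : sel G g q = true) (h' : sel G g q' = true)
    (hs : q.sqrt = q'.sqrt) : q = q' := by
  rw [sel_iff] at h h'
  rcases Nat.lt_trichotomy q q' with h1 | h1 | h1
  · exact absurd h.1 (h'.2 q h1 hs)
  · exact h1
  · exact absurd h'.1 (h.2 q' h1 hs.symm)

/-- Windows. -/
theorem sqrt_window {i q : ℕ} (h1 : i * i ≤ q) (h2 : q < (i + 1) * (i + 1)) : q.sqrt = i :=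
  (Nat.eq_sqrt.2 ⟨h1, h2⟩).symm

theorem window_le (q : ℕ) : q.sqrt * q.sqrt ≤ q := Nat.sqrt_le q

theorem lt_window (q : ℕ) : q < (q.sqrt + 1) * (q.sqrt + 1) := Nat.lt_succ_sqrt q

theorem exists_good (i : ℕ) : ∃ q, q.sqrt = i ∧ good G g q = true := by
  classical
  by_contra hcon
  push Not at hcon
  have h1 : ∀ q, q.sqrt = i → ∃ e < i, bad G g e q = true := by
    intro q hq
    by_contra h2
    refine hcon q hq ((good_iff G g).2 fun e he hb => h2 ⟨e, ?_, hb⟩)
    rwa [hq] at he
  choose! f hf1 hf2 using h1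
  have hw : ∀ q ∈ Finset.Ico (i * i) ((i + 1) * (i + 1)), q.sqrt = i := fun q hq =>
    sqrt_window (Finset.mem_Ico.1 hq).1 (Finset.mem_Ico.1 hq).2
  obtain ⟨q, hq, q', hq', hne, heq⟩ := Finset.exists_ne_map_eq_of_card_lt_of_maps_to
    (s := Finset.Ico (i * i) ((i + 1) * (i + 1))) (t := Finset.range i) (f := f)
    (by
      rw [Finset.card_range, Nat.card_Ico]
      have : (i + 1) * (i + 1) = i * i + (2 * i + 1) := by ring
      omega)
    (fun q hq => Finset.mem_coe.2 (Finset.mem_range.2 (hf1 q (hw q hq))))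
  have b1 := (bad_iff G g).1 (hf2 q (hw q hq))
  have b2 := (bad_iff G g).1 (hf2 q' (hw q' hq'))
  rw [← heq] at b2
  obtain ⟨n, h1, h2, h3⟩ := b2.1
  refine b1.2 ⟨n, ?_, ?_, ?_, h3⟩
  · rw [hw q hq]
    exact ((strictMono_bB G g).monotone (Finset.mem_Ico.1 hq').1).trans h1
  · rw [hw q hq]
    exact h2.trans_le ((strictMono_bB G g).monotone (Nat.succ_le_of_lt (Finset.mem_Ico.1 hq').2))
  · rintro ⟨h4, h5⟩
    rcases Nat.lt_or_gt_of_ne hne with h6 | h6
    · have := (strictMono_bB G g).monotone (Nat.succ_le_of_lt h6)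
      have h7 : bB G g (q + 1) ≤ bB G g q' := this
      omega
    · have := (strictMono_bB G g).monotone (Nat.succ_le_of_lt h6)
      have h7 : bB G g (q' + 1) ≤ bB G g q := this
      omega

theorem exists_sel (i : ℕ) : ∃ q, q.sqrt = i ∧ sel G g q = true := by
  classical
  have h := exists_good G g i
  refine ⟨Nat.find h, (Nat.find_spec h).1, ?_⟩
  rw [sel_iff]
  refine ⟨(Nat.find_spec h).2, fun q' hq' hs => ?_⟩
  have h1 := Nat.find_min h hq'
  intro h2
  exact h1 ⟨hs.trans (Nat.find_spec h).1, h2⟩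

/-- The contribution of the interval `q`. -/
def ctr (n q : ℕ) : ℕ := bif sel G g q && decide (bB G g q ≤ n) then G (min n (bC G g q)) else 0

/-- The time bound. -/
def tM (n : ℕ) : ℕ := Nat.rec (motive := fun _ => ℕ) 0 (fun q m => max m (ctr G g n q)) (n + 1)

theorem rec_max_le {c : ℕ → ℕ} {N B : ℕ} :
    Nat.rec (motive := fun _ => ℕ) 0 (fun q m => max m (c q)) N ≤ B ↔ ∀ q < N, c q ≤ B := by
  induction N with
  | zero => simp
  | succ N ih =>
    show max _ _ ≤ B ↔ _
    rw [max_le_iff, ih]
    constructor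
    · rintro ⟨h1, h2⟩ q hq
      rcases Nat.lt_succ_iff_lt_or_eq.1 hq with h | rfl
      · exact h1 q h
      · exact h2
    · intro h
      exact ⟨fun q hq => h q (by omega), h N (by omega)⟩

theorem tM_le_iff {n B : ℕ} : tM G g n ≤ B ↔ ∀ q, ctr G g n q ≤ B := by
  refine (rec_max_le (c := ctr G g n) (N := n + 1) (B := B)).trans ?_
  constructor
  · intro h q
    rcases Nat.lt_or_ge q (n + 1) with h1 | h1
    · exact h q h1
    · unfold ctr
      have h2 : decide (bB G g q ≤ n) = false := by
        rw [decide_eq_false_iff_not]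
        have := le_bB G g q
        omega
      rw [h2, Bool.and_false]
      exact Nat.zero_le _
  · exact fun h q _ => h q

theorem ctr_le_tM (n q : ℕ) : ctr G g n q ≤ tM G g n := (tM_le_iff G g).1 le_rfl q

variable {G} (hm : Monotone G)

include hm

theorem ctr_le (n q : ℕ) : ctr G g n q ≤ G n := by
  unfold ctr
  cases sel G g q && decide (bB G g q ≤ n)
  · exact Nat.zero_le _
  · exact hm (min_le_left _ _)

theorem tM_le (n : ℕ) : tM G g n ≤ G n := (tM_le_iff G g).2 fun q => ctr_le g hm n q

theorem monotone_tM : Monotone (tM G g) := by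
  intro m n hmn
  refine (tM_le_iff G g).2 fun q => ?_
  refine le_trans ?_ (ctr_le_tM G g n q)
  unfold ctr
  by_cases h : (sel G g q && decide (bB G g q ≤ m)) = true
  · have h' : (sel G g q && decide (bB G g q ≤ n)) = true := by
      simp only [Bool.and_eq_true, decide_eq_true_eq] at h ⊢
      exact ⟨h.1, h.2.trans hmn⟩
    rw [h, h']
    exact hm (min_le_min hmn le_rfl)
  · rw [Bool.not_eq_true] at h
    rw [h]
    exact Nat.zero_le _

theorem tM_eq {q n : ℕ} (hs : sel G g q = true) (h1 : bB G g q ≤ n) (h2 : n ≤ bC G g q) :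
    tM G g n = G n := by
  refine le_antisymm (tM_le g hm n) (le_trans ?_ (ctr_le_tM G g n q))
  unfold ctr
  rw [hs, decide_eq_true h1]
  show G n ≤ G (min n (bC G g q))
  exact hm (le_min le_rfl h2)

/-- Outside the selected intervals the time bound is small. -/
theorem tM_small {q n : ℕ} (hq : 0 < q) (hs : sel G g q = false) (h2 : n < bB G g (q + 1)) :
    tM G g n ≤ G (bC G g (q - 1)) := by
  refine (tM_le_iff G g).2 fun q' => ?_
  unfold ctr
  by_cases h : (sel G g q' && decide (bB G g q' ≤ n)) = true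
  · rw [h]
    simp only [Bool.and_eq_true, decide_eq_true_eq] at h
    have h3 : q' < q + 1 := (strictMono_bB G g).lt_iff_lt.1 (h.2.trans_lt h2)
    have h4 : q' ≠ q := by
      rintro rfl
      rw [h.1] at hs
      exact absurd hs (by simp)
    exact hm ((min_le_right _ _).trans (monotone_bC G g (by omega)))
  · rw [Bool.not_eq_true] at h
    rw [h]
    exact Nat.zero_le _

omit hm in
theorem exists_interval (n : ℕ) : ∃ q, bB G g q ≤ n ∧ n < bB G g (q + 1) := by
  classical
  have h : ∃ q, n < bB G g (q + 1) := ⟨n, (Nat.lt_succ_self n).trans_le (le_bB G g (n + 1))⟩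
  refine ⟨Nat.find h, ?_, Nat.find_spec h⟩
  rcases Nat.eq_zero_or_pos (Nat.find h) with h0 | h0
  · rw [h0]
    exact Nat.zero_le _
  · have h1 := Nat.find_min h (Nat.sub_lt h0 Nat.one_pos)
    rw [Nat.sub_add_cancel h0] at h1
    omega

theorem trivial_tM (A : Type) [Finite A] : NTIMEPol A (tM G g) = {L | PrefixDetermined L} := by
  refine trivial_of_reqs (G := G) (fun n => tM_le g hm n) (fun e => ?_) A
  by_cases h : ∃ n, bB G g ((e + 1) * (e + 1)) ≤ n ∧ rel G e n = true
  · right
    obtain ⟨n, h1, h2⟩ := h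
    obtain ⟨p, hp1, hp2⟩ := exists_interval (G := G) g n
    set i := p.sqrt with hi
    have hei : e < i := by
      have h3 : (e + 1) * (e + 1) < p + 1 := (strictMono_bB G g).lt_iff_lt.1 (h1.trans_lt hp2)
      have h4 : e + 1 ≤ p.sqrt := Nat.le_sqrt.2 (by omega)
      omega
    obtain ⟨q, hq, hsel⟩ := exists_sel G g i
    have hnb : ¬ bad G g e q = true := by
      have := (good_iff G g).1 ((sel_iff G g).1 hsel).1 e
      rw [hq] at this
      exact this hei
    have hn1 : bB G g (i * i) ≤ n := ((strictMono_bB G g).monotone (window_le p)).trans hp1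
    have hn2 : n < bB G g ((i + 1) * (i + 1)) :=
      hp2.trans_le ((strictMono_bB G g).monotone (Nat.succ_le_of_lt (lt_window p)))
    -- a relevant length outside the selected interval
    obtain ⟨n', h3, h4, h5, h6⟩ : ∃ n, bB G g (i * i) ≤ n ∧ n < bB G g ((i + 1) * (i + 1)) ∧
        ¬ (bB G g q ≤ n ∧ n < bB G g (q + 1)) ∧ rel G e n = true := by
      by_contra hcon
      refine hcon ⟨n, hn1, hn2, ?_, h2⟩
      rintro ⟨h7, h8⟩
      refine hnb ((bad_iff G g).2 ⟨⟨n, h7, h8, h2⟩, ?_⟩)
      rw [hq]
      exact hcon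
    obtain ⟨p', hp3, hp4⟩ := exists_interval (G := G) g n'
    have h7 : i * i < p' + 1 := (strictMono_bB G g).lt_iff_lt.1 (h3.trans_lt hp4)
    have h8 : p' < (i + 1) * (i + 1) := (strictMono_bB G g).lt_iff_lt.1 (hp3.trans_lt h4)
    have h9 : p'.sqrt = i := sqrt_window (by omega) h8
    have h10 : sel G g p' = false := by
      rw [← Bool.not_eq_true]
      intro hs
      have := sel_unique G g hs hsel (h9.trans hq.symm)
      subst this
      exact h5 ⟨hp3, hp4⟩
    have h11 : i ≤ p' := by
      have : i ≤ i * i := Nat.le_mul_self i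
      omega
    refine ⟨n', h6, ?_⟩
    have h12 := tM_small g hm (q := p') (n := n') (by omega) h10 hp4
    have h13 := Pl_lt G g (e := e) (q := p' - 1) (by omega)
    rw [Nat.sub_add_cancel (by omega)] at h13
    exact ((Pl_mono h12).trans_lt h13).trans_le hp3
  · left
    push Not at h
    refine ⟨bB G g ((e + 1) * (e + 1)), fun n hn => ?_⟩
    exact Bool.eq_false_iff.2 (h n hn)

theorem frequently_tM : ∃ᶠ b in atTop, ∀ n, b ≤ n → n ≤ g b → tM G g n = G n := by
  rw [frequently_atTop]
  intro B
  obtain ⟨q, hq, hs⟩ := exists_sel G g B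
  refine ⟨bB G g q, ?_, fun n h1 h2 => tM_eq g hm hs h1 (h2.trans (le_gg g _))⟩
  have h1 : B ≤ q := hq ▸ Nat.sqrt_le_self q
  exact h1.trans (le_bB G g q)

omit hm

variable {g} (hGc : Computable G) (hg : Computable g)

include hGc hg in
theorem computable_bB : Computable (bB G g) := by
  have hG := computable_gg hg
  have h : Computable₂ fun (_ : ℕ) (p : ℕ × ℕ) =>
      gg g p.2 + 1 + (G (gg g p.2) + p.1 + 1) ^ (p.1 + 1) := by
    have h1 : Computable fun a : ℕ × (ℕ × ℕ) => gg g a.2.2 :=
      hG.comp (Computable.snd.comp Computable.snd)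
    have h2 : Computable fun a : ℕ × (ℕ × ℕ) => a.2.1 := Computable.fst.comp Computable.snd
    have h3 : Computable fun a : ℕ × (ℕ × ℕ) => (G (gg g a.2.2) + a.2.1 + 1) ^ (a.2.1 + 1) :=
      Pool.Agent.H71.NT.primrec_pow.to_comp.comp
        (Computable.succ.comp (Primrec.nat_add.to_comp.comp (hGc.comp h1) h2))
        (Computable.succ.comp h2)
    exact Primrec.nat_add.to_comp.comp (Computable.succ.comp h1) h3
  exact Computable.nat_rec (f := fun n : ℕ => n) (g := fun _ => 0) Computable.id
    (Computable.const _) h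

include hGc in
theorem computable_relOut : Computable fun z : ℕ × ((ℕ × ℕ) × (ℕ × ℕ)) =>
    relOut G z.1 z.2.1.1 z.2.1.2 z.2.2.1 z.2.2.2 := by
  have he : Computable fun z : (ℕ × ((ℕ × ℕ) × (ℕ × ℕ))) × ℕ => z.1.1 :=
    Computable.fst.comp Computable.fst
  have hn : Computable fun z : (ℕ × ((ℕ × ℕ) × (ℕ × ℕ))) × ℕ => z.2 := Computable.snd
  have ha : Computable fun z : (ℕ × ((ℕ × ℕ) × (ℕ × ℕ))) × ℕ => z.1.2.1.1 :=
    Computable.fst.comp (Computable.fst.comp (Computable.snd.comp Computable.fst))
  have hc : Computable fun z : (ℕ × ((ℕ × ℕ) × (ℕ × ℕ))) × ℕ => z.1.2.2.1 :=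
    Computable.fst.comp (Computable.snd.comp (Computable.snd.comp Computable.fst))
  have hd : Computable fun z : (ℕ × ((ℕ × ℕ) × (ℕ × ℕ))) × ℕ => z.1.2.2.2 :=
    Computable.snd.comp (Computable.snd.comp (Computable.snd.comp Computable.fst))
  have h1 := computable_len.comp ha hn
  have h2 := computable_not.comp (computable_and.comp (computable_len.comp hc hn)
    (computable_lt'.comp hn hd))
  have h3 := (computable_rel (G := G) hGc).comp he hn
  have h4 : Computable₂ fun (z : ℕ × ((ℕ × ℕ) × (ℕ × ℕ))) (n : ℕ) =>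
      (decide (z.2.1.1 ≤ n) && (!(decide (z.2.2.1 ≤ n) && decide (n < z.2.2.2)) &&
        rel G z.1 n)) := computable_and.comp h1 (computable_and.comp h2 h3)
  exact computable_bex h4 (Computable.snd.comp (Computable.fst.comp Computable.snd))

include hGc hg in
theorem computable_bad : Computable₂ (bad G g) := by
  have hB := computable_bB hGc hg
  have he : Computable fun z : ℕ × ℕ => z.1 := Computable.fst
  have hq : Computable fun z : ℕ × ℕ => z.2 := Computable.snd
  have h1 : Computable fun z : ℕ × ℕ => bB G g z.2 := hB.comp hq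
  have h2 : Computable fun z : ℕ × ℕ => bB G g (z.2 + 1) := hB.comp (Computable.succ.comp hq)
  have hs : Computable fun z : ℕ × ℕ => z.2.sqrt := Primrec.nat_sqrt.to_comp.comp hq
  have h3 : Computable fun z : ℕ × ℕ => bB G g (z.2.sqrt * z.2.sqrt) :=
    hB.comp (Primrec.nat_mul.to_comp.comp hs hs)
  have h4 : Computable fun z : ℕ × ℕ => bB G g ((z.2.sqrt + 1) * (z.2.sqrt + 1)) :=
    hB.comp (Primrec.nat_mul.to_comp.comp (Computable.succ.comp hs) (Computable.succ.comp hs))
  have h5 := (computable_relOut hGc).comp (he.pair ((h1.pair h2).pair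
    ((Computable.const 0).pair (Computable.const 0))))
  have h6 := (computable_relOut hGc).comp (he.pair ((h3.pair h4).pair (h1.pair h2)))
  exact computable_and.comp h5 (computable_not.comp h6)

include hGc hg in
theorem computable_good : Computable (good G g) := by
  have h : Computable₂ fun (q e : ℕ) => bad G g e q :=
    (computable_bad hGc hg).comp Computable.snd Computable.fst
  exact computable_not.comp (computable_bex h Primrec.nat_sqrt.to_comp)

include hGc hg in
theorem computable_sel : Computable (sel G g) := by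
  have h1 : Computable₂ fun (q q' : ℕ) => decide (q'.sqrt = q.sqrt) && good G g q' :=
    computable_and.comp (computable_eqn.comp (Primrec.nat_sqrt.to_comp.comp Computable.snd)
      (Primrec.nat_sqrt.to_comp.comp Computable.fst)) ((computable_good hGc hg).comp Computable.snd)
  exact computable_and.comp (computable_good hGc hg)
    (computable_not.comp (computable_bex h1 Computable.id))

include hGc hg in
theorem computable_tM : Computable (tM G g) := by
  have hn : Computable fun a : ℕ × (ℕ × ℕ) => a.1 := Computable.fst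
  have hq : Computable fun a : ℕ × (ℕ × ℕ) => a.2.1 := Computable.fst.comp Computable.snd
  have hm : Computable fun a : ℕ × (ℕ × ℕ) => a.2.2 := Computable.snd.comp Computable.snd
  have h1 : Computable fun a : ℕ × (ℕ × ℕ) => sel G g a.2.1 && decide (bB G g a.2.1 ≤ a.1) :=
    computable_and.comp ((computable_sel hGc hg).comp hq)
      (computable_len.comp ((computable_bB hGc hg).comp hq) hn)
  have h2 : Computable fun a : ℕ × (ℕ × ℕ) => G (min a.1 (bC G g a.2.1)) :=
    hGc.comp (Primrec.nat_min.to_comp.comp hn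
      ((computable_gg hg).comp ((computable_bB hGc hg).comp hq)))
  have h3 : Computable fun a : ℕ × (ℕ × ℕ) => ctr G g a.1 a.2.1 :=
    Computable.cond h1 h2 (Computable.const 0)
  have h4 : Computable₂ fun (n : ℕ) (p : ℕ × ℕ) => max p.2 (ctr G g n p.1) :=
    Primrec.nat_max.to_comp.comp hm h3
  exact Computable.nat_rec (f := fun n : ℕ => n + 1) (g := fun _ => 0) Computable.succ
    (Computable.const _) h4

/-- The nondecreasing time bounds. -/
theorem exists_mono {G g : ℕ → ℕ} (hG : Computable G) (hm : Monotone G) (hg : Computable g) :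
    ∃ t : ℕ → ℕ, Computable t ∧ Monotone t ∧
    (∀ n, t n ≤ G n) ∧ (∃ᶠ b in atTop, ∀ n, b ≤ n → n ≤ g b → t n = G n) ∧
    ∀ (A : Type) [Finite A], NTIMEPol A t = {L | PrefixDetermined L} :=
  ⟨tM G g, computable_tM hG hg, monotone_tM g hm, tM_le g hm, frequently_tM g hm,
    fun A _ => trivial_tM g hm A⟩

end

end Pool.Agent.H71.SD
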