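import Pool.Agent.H71.SD.Sparse
import Pool.Agent.H71.NT.Near

/-!
Sets of lengths in `NP` and failure of closure.
-/

namespace Pool.Agent.H71.SD

open Function Pool.Agent.Lead.NTM Pool.Agent.H71.NT Pool.Agent.H79.Cx Filter

/-- Sets of lengths with short certificates. -/
theorem mem_np_of_cert {f : ℕ × List Bool → Bool} (hf : PT f) {S : Set ℕ}
    (hS : ∀ n y, f (n, y) = true → n ∈ S) (Q : Polynomial ℕ)
    (hQ : ∀ n ∈ S, ∃ y, f (n, y) = true ∧ y.length ≤ Q.eval n) (A : Type) :
    {w : List A | w.length ∈ S} ∈ NTIMEPol A id := by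
  obtain ⟨T, hT⟩ := exists_guess_machine hf
  obtain ⟨M, hM, hM'⟩ := hT A
  refine ⟨M, T.comp (Polynomial.X + Q), fun w => ?_, fun w hw => ?_⟩
  · rw [hM]
    constructor
    · intro hw
      obtain ⟨y, hy, -⟩ := hQ _ hw
      exact ⟨y, hy⟩
    · rintro ⟨y, hy⟩
      exact hS _ y hy
  · obtain ⟨y, hy, hyl⟩ := hQ _ hw
    obtain ⟨s, hs, hacc⟩ := hM' w y hy
    refine ⟨s, hs.trans ?_, hacc⟩
    rw [Polynomial.eval_comp, Polynomial.eval_add, Polynomial.eval_X]
    exact eval_mono T (Nat.add_le_add_left hyl _)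

/-- Failure of closure for oscillating time bounds. -/
theorem not_closed_of_np {t : ℕ → ℕ} (ht : ∀ k : ℕ, ∃ᶠ n in atTop, t n ^ k < n)
    {k : ℕ} {S : Set ℕ} (hinf : S.Infinite) (hS : ∀ n ∈ S, n ≤ t n ^ k + k)
    {A : Type} [Finite A] [Nonempty A] (hNP : {w : List A | w.length ∈ S} ∈ NTIMEPol A id) :
    coNTIMEPol A t ≠ NTIMEPol A t := by
  intro heq
  set L : Set (List A) := {w : List A | w.length ∈ S} with hL
  have hLt : L ∈ NTIMEPol A t := by
    refine mem_NTIMEPol_of_le hNP (Polynomial.X ^ k + Polynomial.C k) fun w hw => ?_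
    simpa using hS _ hw
  obtain ⟨N, hN⟩ := prefixDetermined_of_inter ht hLt (by rw [heq]; exact hLt)
  obtain ⟨a⟩ := ‹Nonempty A›
  obtain ⟨m, hm, hNm⟩ : ∃ m ∈ S, N ≤ m := by
    obtain ⟨m, hm, h⟩ := hinf.exists_gt N
    exact ⟨m, hm, h.le⟩
  obtain ⟨n, hn, hNn⟩ := ((frequently_eval_lt ht (Polynomial.X ^ k + Polynomial.C k)).and_eventually
    (Filter.eventually_ge_atTop N)).exists
  have hnS : n ∉ S := fun hmem => by
    have := hS n hmem
    simp at hn
    omega
  have h1 : (List.replicate m a) ∈ L ↔ (List.replicate n a) ∈ L := by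
    apply hN
    rw [List.take_replicate, List.take_replicate, min_eq_left hNm, min_eq_left hNn]
  simp only [hL, Set.mem_ofPred_eq, List.length_replicate] at h1
  exact hnS (h1.1 hm)

/-- The words of odd length. -/
theorem odd_mem_np (A : Type) : {w : List A | w.length ∈ {n : ℕ | n % 2 = 1}} ∈ NTIMEPol A id := by
  have hf : PT fun x : ℕ × List Bool => decide (x.1 = 2 * x.2.length + 1) := by
    fun_prop
  refine mem_np_of_cert hf (S := {n : ℕ | n % 2 = 1}) (fun n y h => ?_) Polynomial.X
    (fun n hn => ?_) A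
  · have h1 : n = 2 * y.length + 1 := of_decide_eq_true h
    show n % 2 = 1
    omega
  · have hn' : n % 2 = 1 := hn
    refine ⟨List.replicate (n / 2) true, ?_, ?_⟩
    · refine decide_eq_true ?_
      show n = 2 * (List.replicate (n / 2) true).length + 1
      rw [List.length_replicate]
      omega
    · rw [List.length_replicate, Polynomial.eval_X]
      omega

section

variable (G g : ℕ → ℕ)

/-- The exceptional lengths. -/
def exc (n : ℕ) : Bool := decide (∃ i < n + 1, decide (2 * gg g i = n) = true)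

/-- The time bound which is zero at the lengths `2 * gg g i`. -/
def tN (n : ℕ) : ℕ := bif exc g n then 0 else G n

variable {G g}

theorem exc_iff {n : ℕ} : exc g n = true ↔ ∃ i, 2 * gg g i = n := by
  unfold exc
  simp only [decide_eq_true_eq]
  constructor
  · rintro ⟨i, -, h⟩
    exact ⟨i, h⟩
  · rintro ⟨i, h⟩
    refine ⟨i, ?_, h⟩
    have := (strictMono_gg g).le_apply (x := i)
    omega

theorem computable_tN (hG : Computable G) (hg : Computable g) : Computable (tN G g) := by
  have h1 : Computable₂ fun (n i : ℕ) => decide (2 * gg g i = n) :=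
    H83.NT.computable_eqn.comp (Primrec.nat_mul.to_comp.comp (Computable.const 2)
      ((computable_gg hg).comp Computable.snd)) Computable.fst
  exact Computable.cond (H83.NT.computable_bex h1 Computable.succ) (Computable.const 0) hG

theorem tN_eq (n : ℕ) : tN G g n = G n ∨ tN G g n = 0 := by
  unfold tN
  cases exc g n
  · exact Or.inl rfl
  · exact Or.inr rfl

theorem card_tN_le (j : ℕ) :
    ((Finset.range (g j)).filter fun n => tN G g n ≠ G n).card ≤ j := by
  classical
  have h1 : ∀ n, tN G g n ≠ G n → ∃ i, 2 * gg g i = n := by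
    intro n hn
    rw [← exc_iff]
    by_contra h
    refine hn ?_
    unfold tN
    rw [Bool.not_eq_true] at h
    rw [h]
    rfl
  choose! f hf using h1
  calc ((Finset.range (g j)).filter fun n => tN G g n ≠ G n).card
      ≤ (Finset.range j).card := ?_
    _ = j := Finset.card_range j
  refine Finset.card_le_card_of_injOn f (fun n hn => ?_) ?_
  · have hn' := Finset.mem_filter.1 hn
    have h2 := hf n hn'.2
    have h3 := Finset.mem_range.1 hn'.1
    have h4 := le_gg g j
    have h5 : gg g (f n) < gg g j := by omega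
    exact Finset.mem_coe.2 (Finset.mem_range.2 ((strictMono_gg g).lt_iff_lt.1 h5))
  · intro n hn n' hn' heq
    rw [← hf n (Finset.mem_filter.1 hn).2, ← hf n' (Finset.mem_filter.1 hn').2, heq]

theorem frequently_tN (k : ℕ) : ∃ᶠ n in atTop, tN G g n ^ k < n := by
  rw [Filter.frequently_atTop]
  intro B
  have h1 := (strictMono_gg g).le_apply (x := B + 1)
  refine ⟨2 * gg g (B + 1), by omega, ?_⟩
  have h2 : tN G g (2 * gg g (B + 1)) = 0 := by
    unfold tN
    rw [exc_iff.2 ⟨_, rfl⟩]
    rfl
  rw [h2]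
  calc 0 ^ k ≤ 1 := by
        rcases Nat.eq_zero_or_pos k with rfl | hk
        · simp
        · rw [Nat.zero_pow hk]; omega
    _ < _ := by omega

/-- Time bounds for which the class is not closed. -/
theorem exists_sparse_not (hG : Computable G) (hid : ∀ n, n ≤ G n) (hg : Computable g) :
    ∃ t : ℕ → ℕ, Computable t ∧ (∀ n, t n = G n ∨ t n = 0) ∧
    (∀ j, ((Finset.range (g j)).filter fun n => t n ≠ G n).card ≤ j) ∧
    (∀ k : ℕ, ∃ᶠ n in atTop, t n ^ k < n) ∧
    ∀ (A : Type) [Finite A] [Nonempty A], coNTIMEPol A t ≠ NTIMEPol A t := by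
  refine ⟨tN G g, computable_tN hG hg, tN_eq, card_tN_le, frequently_tN, fun A _ _ => ?_⟩
  refine not_closed_of_np frequently_tN (k := 1) (S := {n : ℕ | n % 2 = 1}) ?_ ?_ (odd_mem_np A)
  · refine Set.infinite_of_injective_forall_mem (f := fun i : ℕ => 2 * i + 1) ?_ ?_
    · intro a b h
      have h' : 2 * a + 1 = 2 * b + 1 := h
      omega
    · intro i
      show (2 * i + 1) % 2 = 1
      omega
  · intro n hn
    have hn' : n % 2 = 1 := hn
    have h1 : tN G g n = G n := by
      rcases tN_eq (G := G) (g := g) n with h | h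
      · exact h
      · unfold tN at h ⊢
        have h2 : exc g n = false := by
          rw [← Bool.not_eq_true, exc_iff]
          rintro ⟨i, hi⟩
          omega
        rw [h2]
        rfl
    rw [h1, pow_one]
    have := hid n
    omega

end

end Pool.Agent.H71.SD
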