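import Pool.Agent.H71.SD.Basic
import Pool.Agent.H83.NT.Pi3C

/-!
For all computable `G` and `g` there is a computable `t` with `t(n) = G(n)`, except for at most `j`
lengths `n < g(j)`, at which `t(n) = 0`, for which `NTIME(Pol t)` consists of the
prefix-determined languages.
-/

namespace Pool.Agent.H71.SD

open Function Pool.Agent.Lead.NTM Encodable Denumerable Pool.Agent.H83.NT
open Nat.Partrec (Code)

attribute [local irreducible] T words accB hh mke eM eC eD Pl

variable (G g : ℕ → ℕ)

/-- The word `u` is accepted within `P(G(n))` steps, but not in less than `n` steps. -/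
def kwd (e n : ℕ) (u : List ℕ) : Bool :=
  accB (eC e) u (Pl (eD e) (G n)) && !(accB (eC e) u (n - 1))

variable {G g}

theorem computable_kwd (hG : Computable G) :
    Computable fun z : (ℕ × ℕ) × List ℕ => kwd G z.1.1 z.1.2 z.2 := by
  have he : Computable fun z : (ℕ × ℕ) × List ℕ => z.1.1 := Computable.fst.comp Computable.fst
  have hn : Computable fun z : (ℕ × ℕ) × List ℕ => z.1.2 := Computable.snd.comp Computable.fst
  have hC : Computable fun z : (ℕ × ℕ) × List ℕ => eC z.1.1 := primrec_eC.to_comp.comp he
  have hD : Computable fun z : (ℕ × ℕ) × List ℕ => eD z.1.1 := primrec_eD.to_comp.comp he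
  have h1 : Computable fun z : (ℕ × ℕ) × List ℕ => Pl (eD z.1.1) (G z.1.2) :=
    primrec_Pl.to_comp.comp hD (hG.comp hn)
  have h2 : Computable fun z : (ℕ × ℕ) × List ℕ => z.1.2 - 1 :=
    Primrec.nat_sub.to_comp.comp hn (Computable.const 1)
  have h3 := computable_accB.comp ((hC.pair Computable.snd).pair h1)
  have h4 := computable_accB.comp ((hC.pair Computable.snd).pair h2)
  exact computable_and.comp h3 (computable_not.comp h4)

theorem kwd_iff {e n : ℕ} {u : List ℕ} : kwd G e n u = true ↔
    accB (eC e) u (Pl (eD e) (G n)) = true ∧ accB (eC e) u (n - 1) = false := by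
  unfold kwd
  simp only [Bool.and_eq_true, Bool.not_eq_true']

attribute [local irreducible] kwd

variable (G g) in
/-- Some word of length `n` is relevant for the requirement `e`. -/
def rel (e n : ℕ) : Bool :=
  decide (∃ i < (words (eM e) n).length, kwd G e n ((words (eM e) n).getD i []) = true)

theorem rel_iff {e n : ℕ} : rel G e n = true ↔ ∃ u ∈ words (eM e) n, kwd G e n u = true := by
  unfold rel
  simp only [decide_eq_true_eq]
  constructor
  · rintro ⟨i, hi, h⟩
    rw [List.getD_eq_getElem _ _ hi] at h
    exact ⟨_, List.getElem_mem hi, h⟩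
  · rintro ⟨u, hu, h⟩
    obtain ⟨i, hi, rfl⟩ := List.mem_iff_getElem.1 hu
    exact ⟨i, hi, by rwa [List.getD_eq_getElem _ _ hi]⟩

theorem computable_rel (hG : Computable G) : Computable₂ (rel G) := by
  have hw : Computable fun z : ℕ × ℕ => words (eM z.1) z.2 :=
    primrec_words.to_comp.comp (primrec_eM.to_comp.comp Computable.fst) Computable.snd
  have hl : Computable fun z : ℕ × ℕ => (words (eM z.1) z.2).length :=
    Primrec.list_length.to_comp.comp hw
  have hu : Computable fun z : (ℕ × ℕ) × ℕ => (words (eM z.1.1) z.1.2).getD z.2 [] :=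
    (Primrec.list_getD ([] : List ℕ)).to_comp.comp (hw.comp Computable.fst) Computable.snd
  have h2' := (computable_kwd hG).comp ((Computable.fst : Computable fun z : (ℕ × ℕ) × ℕ =>
    z.1).pair hu)
  have h2 : Computable₂ fun (z : ℕ × ℕ) (i : ℕ) =>
      kwd G z.1 z.2 ((words (eM z.1) z.2).getD i []) := h2'
  exact computable_bex h2 hl

attribute [local irreducible] rel

/-- **Relevant lengths.** For a machine and a polynomial there is a requirement `e` such that: a
length `n` relevant for `e` with `Pl (eD e) (t n) < n` is the length of a word which is accepted,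
but not in time `p(t(n))`; if `n` is not relevant and `t(n) ≤ G(n)`, then each word of length `n`
accepted in time `p(t(n))` is accepted in less than `n` steps. -/
theorem exists_req {A : Type} [Finite A] (M : Machine A) (p : Polynomial ℕ) : ∃ e,
    (∀ (t : ℕ → ℕ) (n : ℕ), rel G e n = true → Pl (eD e) (t n) < n →
      ∃ w : List A, w.length = n ∧ Accepts M w ∧ ¬ ∃ s ≤ p.eval (t n), AcceptsIn M w s) ∧
    ∀ (t : ℕ → ℕ) (n : ℕ), 0 < n → rel G e n = false → t n ≤ G n → ∀ w : List A, w.length = n →
      (∃ s ≤ p.eval (t n), AcceptsIn M w s) → ∃ s < n, AcceptsIn M w s := by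
  obtain ⟨m, ⟨E⟩⟩ := exists_coding A
  obtain ⟨c, hc⟩ := exists_code M E.e E.inj
  obtain ⟨d, hd⟩ := exists_Pl p
  refine ⟨mke m c d, ?_, ?_⟩
  · intro t n hrel hlt
    rw [rel_iff] at hrel
    obtain ⟨u, hu, hk⟩ := hrel
    rw [eM_mke] at hu
    rw [eD_mke] at hlt
    obtain ⟨w, hw, rfl⟩ := E.exists_word hu
    rw [kwd_iff, eC_mke, eD_mke] at hk
    obtain ⟨h2, h3⟩ := hk
    obtain ⟨s, -, hs⟩ := (accB_iff_accepts hc).1 h2
    refine ⟨w, hw, ⟨s, hs⟩, ?_⟩
    rintro ⟨s', h4, h5⟩
    have h6 : accB c (w.map E.e) (n - 1) = true := by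
      refine (accB_iff_accepts hc).2 ⟨s', ?_, h5⟩
      have := hd (t n)
      omega
    rw [h3] at h6
    exact absurd h6 (by simp)
  · intro t n hn hrel htG w hw hacc
    by_contra hcon
    have h1 : rel G (mke m c d) n = true := by
      rw [rel_iff]
      refine ⟨w.map E.e, ?_, ?_⟩
      · rw [eM_mke, mem_words]
        refine ⟨by simp [hw], fun a ha => ?_⟩
        obtain ⟨b, -, rfl⟩ := List.mem_map.1 ha
        exact E.lt b
      · rw [kwd_iff, eC_mke, eD_mke]
        constructor
        · obtain ⟨s, h1, h2⟩ := hacc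
          exact (accB_iff_accepts hc).2 ⟨s, h1.trans ((hd _).trans (Pl_mono htG)), h2⟩
        · rw [Bool.eq_false_iff]
          intro h3
          obtain ⟨s, h4, h5⟩ := (accB_iff_accepts hc).1 h3
          exact hcon ⟨s, by omega, h5⟩
    rw [h1] at hrel
    exact absurd hrel (by simp)

/-- If all requirements are satisfied, the class is trivial. -/
theorem trivial_of_reqs {t : ℕ → ℕ} (htG : ∀ n, t n ≤ G n)
    (h : ∀ e, (∃ n0, ∀ n, n0 ≤ n → rel G e n = false) ∨
      ∃ n, rel G e n = true ∧ Pl (eD e) (t n) < n) (A : Type) [Finite A] :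
    NTIMEPol A t = {L | PrefixDetermined L} := by
  refine Set.Subset.antisymm ?_ (fun L hL => prefixDetermined_mem t hL)
  rintro L ⟨M, p, hM, hp⟩
  obtain ⟨e, he1, he2⟩ := exists_req (G := G) M p
  rcases h e with ⟨n0, hn0⟩ | ⟨n, h1, h2⟩
  · refine prefixDetermined_of_short hM (n0 + 1) fun w hw hlen => ?_
    exact he2 t w.length (by omega) (hn0 _ (by omega)) (htG _) w rfl (hp w hw)
  · exfalso
    obtain ⟨w, hw, hacc, hnot⟩ := he1 t n h1 h2
    have := hp w ((hM w).2 hacc)
    rw [hw] at this
    exact hnot this

variable (G g) in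
/-- Relevant lengths at which the requirement `e` may act. -/
def rel' (e n : ℕ) : Bool := decide (NT.gg g e < n) && (decide (Pl (eD e) 0 < n) && rel G e n)

variable (G g) in
/-- The requirement `e` acts at `n`. -/
def fst' (e n : ℕ) : Bool := rel' G g e n && !(decide (∃ n' < n, rel' G g e n' = true))

variable (G g) in
/-- Some requirement acts at `n`. -/
def hit (n : ℕ) : Bool := decide (∃ e < n, fst' G g e n = true)

variable (G g) in
/-- The time bound. -/
def tS (n : ℕ) : ℕ := bif hit G g n then 0 else G n

theorem computable_lt' : Computable₂ fun a b : ℕ => decide (a < b) :=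
  Primrec.nat_lt.decide.to_comp

theorem computable_rel' (hG : Computable G) (hg : Computable g) : Computable₂ (rel' G g) := by
  have h1 : Computable fun z : ℕ × ℕ => decide (NT.gg g z.1 < z.2) :=
    computable_lt'.comp ((NT.computable_gg hg).comp Computable.fst) Computable.snd
  have h2 : Computable fun z : ℕ × ℕ => decide (Pl (eD z.1) 0 < z.2) :=
    computable_lt'.comp (primrec_Pl.to_comp.comp (primrec_eD.to_comp.comp Computable.fst)
      (Computable.const 0)) Computable.snd
  exact computable_and.comp h1 (computable_and.comp h2 (computable_rel hG))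

theorem rel'_iff {e n : ℕ} : rel' G g e n = true ↔
    NT.gg g e < n ∧ Pl (eD e) 0 < n ∧ rel G e n = true := by
  unfold rel'
  simp only [Bool.and_eq_true, decide_eq_true_eq]

attribute [local irreducible] rel'

theorem computable_fst' (hG : Computable G) (hg : Computable g) : Computable₂ (fst' G g) := by
  have h2 : Computable₂ fun (z : ℕ × ℕ) (n' : ℕ) => rel' G g z.1 n' :=
    (computable_rel' hG hg).comp (Computable.fst.comp Computable.fst) Computable.snd
  exact computable_and.comp (computable_rel' hG hg)
    (computable_not.comp (computable_bex h2 Computable.snd))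

theorem fst'_iff {e n : ℕ} : fst' G g e n = true ↔
    rel' G g e n = true ∧ ∀ n' < n, rel' G g e n' = false := by
  unfold fst'
  simp only [Bool.and_eq_true, Bool.not_eq_true', decide_eq_false_iff_not, not_exists, not_and,
    Bool.not_eq_true]

attribute [local irreducible] fst'

theorem fst'_unique {e n n' : ℕ} (h : fst' G g e n = true) (h' : fst' G g e n' = true) :
    n = n' := by
  rw [fst'_iff] at h h'
  rcases Nat.lt_trichotomy n n' with h1 | h1 | h1
  · have := h'.2 n h1
    rw [h.1] at this
    exact absurd this (by simp)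
  · exact h1
  · have := h.2 n' h1
    rw [h'.1] at this
    exact absurd this (by simp)

theorem computable_tS (hG : Computable G) (hg : Computable g) : Computable (tS G g) := by
  have h1 : Computable₂ fun (n e : ℕ) => fst' G g e n :=
    (computable_fst' hG hg).comp Computable.snd Computable.fst
  have h2 : Computable fun n : ℕ => decide (∃ e < n, fst' G g e n = true) :=
    computable_bex h1 Computable.id
  exact Computable.cond h2 (Computable.const 0) hG

theorem hit_iff {n : ℕ} : hit G g n = true ↔ ∃ e, fst' G g e n = true := by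
  unfold hit
  simp only [decide_eq_true_eq]
  constructor
  · rintro ⟨e, -, h⟩
    exact ⟨e, h⟩
  · rintro ⟨e, h⟩
    refine ⟨e, ?_, h⟩
    have h1 := (rel'_iff.1 (fst'_iff.1 h).1).1
    exact (NT.strictMono_gg g).le_apply.trans_lt h1

theorem tS_eq (n : ℕ) : tS G g n = G n ∨ tS G g n = 0 := by
  unfold tS
  cases hit G g n
  · exact Or.inl rfl
  · exact Or.inr rfl

theorem card_le (j : ℕ) :
    ((Finset.range (g j)).filter fun n => tS G g n ≠ G n).card ≤ j := by
  classical
  have h1 : ∀ n, tS G g n ≠ G n → ∃ e, fst' G g e n = true := by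
    intro n hn
    rw [← hit_iff]
    by_contra h
    refine hn ?_
    unfold tS
    rw [Bool.not_eq_true] at h
    rw [h]
    rfl
  choose! f hf using h1
  calc ((Finset.range (g j)).filter fun n => tS G g n ≠ G n).card
      ≤ (Finset.range j).card := ?_
    _ = j := Finset.card_range j
  refine Finset.card_le_card_of_injOn f (fun n hn => ?_) ?_
  · have hn' := Finset.mem_filter.1 hn
    have h2 := (rel'_iff.1 (fst'_iff.1 (hf n hn'.2)).1).1
    have h3 := Finset.mem_range.1 hn'.1
    have h4 := NT.le_gg g j
    have h5 : NT.gg g (f n) < NT.gg g j := by omega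
    exact Finset.mem_coe.2 (Finset.mem_range.2 ((NT.strictMono_gg g).lt_iff_lt.1 h5))
  · intro n hn n' hn' heq
    have h2 := hf n (Finset.mem_filter.1 hn).2
    have h3 := hf n' (Finset.mem_filter.1 hn').2
    rw [heq] at h2
    exact fst'_unique h2 h3

theorem trivial_tS (A : Type) [Finite A] : NTIMEPol A (tS G g) = {L | PrefixDetermined L} := by
  refine trivial_of_reqs (G := G) (fun n => ?_) (fun e => ?_) A
  · rcases tS_eq (G := G) (g := g) n with h | h <;> omega
  · by_cases h : ∃ n, rel' G g e n = true
    · right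
      have h1 : fst' G g e (Nat.find h) = true := by
        rw [fst'_iff]
        refine ⟨Nat.find_spec h, fun n' hn' => ?_⟩
        have := Nat.find_min h hn'
        rwa [Bool.not_eq_true] at this
      refine ⟨Nat.find h, (rel'_iff.1 (Nat.find_spec h)).2.2, ?_⟩
      have h2 : tS G g (Nat.find h) = 0 := by
        unfold tS
        rw [hit_iff.2 ⟨e, h1⟩]
        rfl
      rw [h2]
      exact (rel'_iff.1 (Nat.find_spec h)).2.1
    · left
      push Not at h
      refine ⟨NT.gg g e + Pl (eD e) 0 + 1, fun n hn => ?_⟩
      have h1 := h n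
      rw [Ne, rel'_iff] at h1
      rw [← Bool.not_eq_true]
      intro h2
      exact h1 ⟨by omega, by omega, h2⟩

/-- The closed time bounds. -/
theorem exists_sparse (hG : Computable G) (hg : Computable g) : ∃ t : ℕ → ℕ, Computable t ∧
    (∀ n, t n = G n ∨ t n = 0) ∧
    (∀ j, ((Finset.range (g j)).filter fun n => t n ≠ G n).card ≤ j) ∧
    ∀ (A : Type) [Finite A], NTIMEPol A t = {L | PrefixDetermined L} :=
  ⟨tS G g, computable_tS hG hg, tS_eq, card_le, fun A _ => trivial_tS A⟩

end Pool.Agent.H71.SD
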